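import Mathlib
import Pool.Agent.Q290.MG.Std
import Pool.Agent.Q290.MG.Cgr

set_option autoImplicit false

/-! The matrices of the twists on homology and Schur's lemma for the homology. -/

namespace Pool.Agent.Q290.MR

open Pool.Agent.H798R3.MG Pool.Agent.H29R2.MG Pool.Agent.TH35.MG Pool.Agent.Q290.MG Module

section
variable {g : ℕ}

theorem homMat_val {T : Mod g} {τ : orientedAut g} (h : classOf g τ = T) (j : Fin g ⊕ Fin g) :
    (fun i => homMat g T i j) = homologyClass (applyAut g τ (gen j)) := by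
  subst h
  rfl

theorem colA (h2 : 2 ≤ g) {k : ℕ} (hk : k < g) (j : Fin g ⊕ Fin g) :
    (fun i => homMat g (gA g k : Mod g) i j) = homologyClass (valA g k j) := by
  rw [homMat_val (τ := TQ.qh g (sA g k)) (by
    show _ = ((gA g k : Gam g) : Mod g)
    rw [gA, toG_coe (memA h2 hk)]; rfl), vA h2 hk]

theorem colB (h2 : 2 ≤ g) {k : ℕ} (hk : k < g) (j : Fin g ⊕ Fin g) :
    (fun i => homMat g (gB g k : Mod g) i j) = homologyClass (valB g k j) := by
  rw [homMat_val (τ := TQ.qh g (sB g k)) (by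
    show _ = ((gB g k : Gam g) : Mod g)
    rw [gB, toG_coe (memB h2 hk)]; rfl), vB h2 hk]

theorem colT (h2 : 2 ≤ g) {k : ℕ} (hk : k + 1 < g) (j : Fin g ⊕ Fin g) :
    (fun i => homMat g (gT g k : Mod g) i j) = homologyClass (valT g k hk j) := by
  rw [homMat_val (τ := TQ.qh g (sT g k (k + 1))) (by
    show _ = ((gT g k : Gam g) : Mod g)
    rw [gT, toG_coe (memT h2 hk)]; rfl), vT h2 hk]

theorem hcU {k : ℕ} (hk : k + 1 < g) : homologyClass (loopU g k hk) =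
    Pi.single (Sum.inl ⟨k, by omega⟩) 1 + Pi.single (Sum.inl ⟨k + 1, hk⟩) 1 := by
  unfold loopU comK
  simp only [hc_mul, hc_inv, hc_gen]
  abel

theorem hcP {k : ℕ} (hk : k + 1 < g) : homologyClass (loopP g k hk) =
    Pi.single (Sum.inl ⟨k, by omega⟩) 1 + Pi.single (Sum.inl ⟨k + 1, hk⟩) 1 := by
  unfold loopP comK
  simp only [hc_mul, hc_inv, hc_gen]
  abel

variable {V : Type*} [AddCommGroup V]

/-- the values of the twists on a family -/
theorem sumA_inl (h2 : 2 ≤ g) {k : ℕ} (hk : k < g) (x : Fin g ⊕ Fin g → V) (l : Fin g) :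
    ∑ i, homMat g (gA g k : Mod g) i (Sum.inl l) • x i = x (Sum.inl l) := by
  have h := colA h2 hk (Sum.inl l)
  have e : ∑ i, homMat g (gA g k : Mod g) i (Sum.inl l) • x i =
      Lf x (fun i => homMat g (gA g k : Mod g) i (Sum.inl l)) := rfl
  rw [e, h]
  show Lf x (homologyClass (gen (Sum.inl l))) = _
  rw [hc_gen, Lf_single]

theorem sumA_inr (h2 : 2 ≤ g) {k : ℕ} (hk : k < g) (x : Fin g ⊕ Fin g → V) :
    ∑ i, homMat g (gA g k : Mod g) i (Sum.inr ⟨k, hk⟩) • x i =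
      x (Sum.inr ⟨k, hk⟩) + x (Sum.inl ⟨k, hk⟩) := by
  have h := colA h2 hk (Sum.inr ⟨k, hk⟩)
  have e : ∑ i, homMat g (gA g k : Mod g) i (Sum.inr ⟨k, hk⟩) • x i =
      Lf x (fun i => homMat g (gA g k : Mod g) i (Sum.inr ⟨k, hk⟩)) := rfl
  rw [e, h]
  unfold valA
  dsimp only
  rw [if_pos rfl, hc_mul, hc_gen, hc_gen, Lf_add, Lf_single, Lf_single]

theorem sumA_ne (h2 : 2 ≤ g) {k : ℕ} (hk : k < g) (x : Fin g ⊕ Fin g → V) {l : Fin g}
    (hl : (l : ℕ) ≠ k) :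
    ∑ i, homMat g (gA g k : Mod g) i (Sum.inr l) • x i = x (Sum.inr l) := by
  have h := colA h2 hk (Sum.inr l)
  have e : ∑ i, homMat g (gA g k : Mod g) i (Sum.inr l) • x i =
      Lf x (fun i => homMat g (gA g k : Mod g) i (Sum.inr l)) := rfl
  rw [e, h]
  unfold valA
  dsimp only
  rw [if_neg hl, hc_gen, Lf_single]

theorem sumB_inr (h2 : 2 ≤ g) {k : ℕ} (hk : k < g) (x : Fin g ⊕ Fin g → V) (l : Fin g) :
    ∑ i, homMat g (gB g k : Mod g) i (Sum.inr l) • x i = x (Sum.inr l) := by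
  have h := colB h2 hk (Sum.inr l)
  have e : ∑ i, homMat g (gB g k : Mod g) i (Sum.inr l) • x i =
      Lf x (fun i => homMat g (gB g k : Mod g) i (Sum.inr l)) := rfl
  rw [e, h]
  show Lf x (homologyClass (gen (Sum.inr l))) = _
  rw [hc_gen, Lf_single]

theorem sumB_inl (h2 : 2 ≤ g) {k : ℕ} (hk : k < g) (x : Fin g ⊕ Fin g → V) :
    ∑ i, homMat g (gB g k : Mod g) i (Sum.inl ⟨k, hk⟩) • x i =
      x (Sum.inl ⟨k, hk⟩) - x (Sum.inr ⟨k, hk⟩) := by
  have h := colB h2 hk (Sum.inl ⟨k, hk⟩)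
  have e : ∑ i, homMat g (gB g k : Mod g) i (Sum.inl ⟨k, hk⟩) • x i =
      Lf x (fun i => homMat g (gB g k : Mod g) i (Sum.inl ⟨k, hk⟩)) := rfl
  rw [e, h]
  unfold valB
  dsimp only
  rw [if_pos rfl, hc_mul, hc_inv, hc_gen, hc_gen, Lf_add, Lf_neg, Lf_single, Lf_single,
    sub_eq_add_neg]

theorem sumB_ne (h2 : 2 ≤ g) {k : ℕ} (hk : k < g) (x : Fin g ⊕ Fin g → V) {l : Fin g}
    (hl : (l : ℕ) ≠ k) :
    ∑ i, homMat g (gB g k : Mod g) i (Sum.inl l) • x i = x (Sum.inl l) := by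
  have h := colB h2 hk (Sum.inl l)
  have e : ∑ i, homMat g (gB g k : Mod g) i (Sum.inl l) • x i =
      Lf x (fun i => homMat g (gB g k : Mod g) i (Sum.inl l)) := rfl
  rw [e, h]
  unfold valB
  dsimp only
  rw [if_neg hl, hc_gen, Lf_single]

theorem sumT_inr (h2 : 2 ≤ g) {k : ℕ} (hk : k + 1 < g) (x : Fin g ⊕ Fin g → V) :
    ∑ i, homMat g (gT g k : Mod g) i (Sum.inr ⟨k, by omega⟩) • x i =
      x (Sum.inr ⟨k, by omega⟩) + (x (Sum.inl ⟨k, by omega⟩) + x (Sum.inl ⟨k + 1, hk⟩)) := by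
  have h := colT h2 hk (Sum.inr ⟨k, by omega⟩)
  have e : ∑ i, homMat g (gT g k : Mod g) i (Sum.inr ⟨k, by omega⟩) • x i =
      Lf x (fun i => homMat g (gT g k : Mod g) i (Sum.inr ⟨k, by omega⟩)) := rfl
  rw [e, h]
  unfold valT
  dsimp only
  rw [if_pos rfl, hc_mul, hc_gen, hcU, Lf_add, Lf_add, Lf_single, Lf_single, Lf_single]

/-- a family with the relations of a block under the twists, one of whose members vanishes, is
zero -/
theorem fam_zero (h2 : 2 ≤ g) {x : Fin g ⊕ Fin g → V} (f : Gam g → V →+ V)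
    (hx : ∀ γ j, f γ (x j) = ∑ i, homMat g γ i j • x i) {j : Fin g ⊕ Fin g} (hj : x j = 0) :
    ∀ i, x i = 0 := by
  have hAB : ∀ {k : ℕ} (hk : k < g), x (Sum.inr ⟨k, hk⟩) = 0 → x (Sum.inl ⟨k, hk⟩) = 0 := by
    intro k hk h
    have h1 := hx (gA g k) (Sum.inr ⟨k, hk⟩)
    rw [sumA_inr h2 hk, h, map_zero, zero_add] at h1
    exact h1.symm
  have hBA : ∀ {k : ℕ} (hk : k < g), x (Sum.inl ⟨k, hk⟩) = 0 → x (Sum.inr ⟨k, hk⟩) = 0 := by
    intro k hk h
    have h1 := hx (gB g k) (Sum.inl ⟨k, hk⟩)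
    rw [sumB_inl h2 hk, h, map_zero, zero_sub] at h1
    exact neg_eq_zero.1 h1.symm
  have hup : ∀ {k : ℕ} (hk : k + 1 < g), x (Sum.inl ⟨k, by omega⟩) = 0 →
      x (Sum.inl ⟨k + 1, hk⟩) = 0 := by
    intro k hk h
    have h1 := hx (gT g k) (Sum.inr ⟨k, by omega⟩)
    rw [sumT_inr h2 hk, hBA _ h, h, map_zero, zero_add, zero_add] at h1
    exact h1.symm
  have hT' : ∀ {k : ℕ} (hk : k + 1 < g), ∑ i, homMat g (gT g k : Mod g) i (Sum.inr ⟨k + 1, hk⟩) • x i =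
      x (Sum.inr ⟨k + 1, hk⟩) + (x (Sum.inl ⟨k, by omega⟩) + x (Sum.inl ⟨k + 1, hk⟩)) := by
    intro k hk
    have h := colT h2 hk (Sum.inr ⟨k + 1, hk⟩)
    have e : ∑ i, homMat g (gT g k : Mod g) i (Sum.inr ⟨k + 1, hk⟩) • x i =
        Lf x (fun i => homMat g (gT g k : Mod g) i (Sum.inr ⟨k + 1, hk⟩)) := rfl
    rw [e, h]
    unfold valT
    dsimp only
    rw [if_neg (by simp), if_pos rfl, hc_mul, hc_gen, hcP, Lf_add, Lf_add, Lf_single, Lf_single,
      Lf_single]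
  have hdn : ∀ {k : ℕ} (hk : k + 1 < g), x (Sum.inl ⟨k + 1, hk⟩) = 0 →
      x (Sum.inl ⟨k, by omega⟩) = 0 := by
    intro k hk h
    have h1 := hx (gT g k) (Sum.inr ⟨k + 1, hk⟩)
    rw [hT' hk, hBA _ h, h, map_zero, zero_add, add_zero] at h1
    exact h1.symm
  obtain ⟨k, hk, h0⟩ : ∃ k, ∃ hk : k < g, x (Sum.inl ⟨k, hk⟩) = 0 := by
    rcases j with j | j
    · exact ⟨j, j.2, hj⟩
    · exact ⟨j, j.2, hAB j.2 hj⟩
  have hz : x (Sum.inl ⟨0, by omega⟩) = 0 := by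
    clear hj
    induction k with
    | zero => exact h0
    | succ k ih => exact ih (by omega) (hdn hk h0)
  have hall : ∀ m, ∀ hm : m < g, x (Sum.inl ⟨m, hm⟩) = 0 := by
    intro m
    induction m with
    | zero => intro _; exact hz
    | succ m ih => intro hm; exact hup hm (ih (by omega))
  rintro (i | i)
  · exact hall i i.2
  · exact hBA i.2 (hall i i.2)

end

end Pool.Agent.Q290.MR
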