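import Mathlib
import Pool.Agent.Q290.MR.Mat

set_option autoImplicit false

/-! Cocycles with values in small representations over a field. -/

namespace Pool.Agent.Q290.MR

open Pool.Agent.H798R3.MG Pool.Agent.H29R2.MG Pool.Agent.TH35.MG Pool.Agent.Q290.MG Module

section
variable {K : Type*} [Field K] {g : ℕ}

theorem hK_apply (γ : Mod g) (h : Fin g ⊕ Fin g → K) (i : Fin g ⊕ Fin g) :
    hK g K γ h i = ∑ j, (homMat g γ i j : K) * h j := by
  have e : hK g K γ = Matrix.toLin' ((homMat g γ).map (Int.castRingHom K)) := rfl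
  rw [e, Matrix.toLin'_apply]
  rfl

theorem entA (h2 : 2 ≤ g) {k : ℕ} (hk : k < g) (i j : Fin g ⊕ Fin g) :
    homMat g (gA g k : Mod g) i j = homologyClass (valA g k j) i :=
  congrFun (colA h2 hk j) i

theorem entB (h2 : 2 ≤ g) {k : ℕ} (hk : k < g) (i j : Fin g ⊕ Fin g) :
    homMat g (gB g k : Mod g) i j = homologyClass (valB g k j) i :=
  congrFun (colB h2 hk j) i

theorem entT (h2 : 2 ≤ g) {k : ℕ} (hk : k + 1 < g) (i j : Fin g ⊕ Fin g) :
    homMat g (gT g k : Mod g) i j = homologyClass (valT g k hk j) i :=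
  congrFun (colT h2 hk j) i

/-- the action of the twist about `a_k` -/
theorem actA (h2 : 2 ≤ g) {k : ℕ} (hk : k < g) (h : Fin g ⊕ Fin g → K) :
    hK g K (gA g k) h = h + Pi.single (Sum.inl ⟨k, hk⟩) (h (Sum.inr ⟨k, hk⟩)) := by
  funext i
  rw [hK_apply, Pi.add_apply]
  have e : ∀ j, (homMat g (gA g k : Mod g) i j : K) * h j =
      (if i = j then h j else 0) +
        (if j = Sum.inr ⟨k, hk⟩ then (if i = Sum.inl ⟨k, hk⟩ then h j else 0) else 0) := by
    intro j
    rw [entA h2 hk]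
    rcases j with l | l
    · show ((homologyClass (gen (Sum.inl l)) i : ℤ) : K) * _ = _
      rw [hc_gen, Pi.single_apply, if_neg (by simp : ¬ (Sum.inl l : Fin g ⊕ Fin g) = Sum.inr ⟨k, hk⟩)]
      split_ifs <;> (push_cast; ring)
    · unfold valA
      dsimp only
      by_cases hl : (l : ℕ) = k
      · subst hl
        rw [if_pos rfl, hc_mul, hc_gen, hc_gen, Pi.add_apply, Pi.single_apply, Pi.single_apply,
          if_pos (rfl : (Sum.inr l : Fin g ⊕ Fin g) = Sum.inr l)]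
        split_ifs <;> (push_cast; ring)
      · rw [if_neg hl, hc_gen, Pi.single_apply,
          if_neg (show ¬ (Sum.inr l : Fin g ⊕ Fin g) = Sum.inr ⟨k, hk⟩ from
            fun e => hl (congrArg Fin.val (Sum.inr.inj e)))]
        split_ifs <;> (push_cast; ring)
  simp only [e, Finset.sum_add_distrib, Finset.sum_ite_eq, Finset.sum_ite_eq', Finset.mem_univ,
    if_true]
  rw [Pi.single_apply]

/-- the action of the twist about `b_k` -/
theorem actB (h2 : 2 ≤ g) {k : ℕ} (hk : k < g) (h : Fin g ⊕ Fin g → K) :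
    hK g K (gB g k) h = h - Pi.single (Sum.inr ⟨k, hk⟩) (h (Sum.inl ⟨k, hk⟩)) := by
  funext i
  rw [hK_apply, Pi.sub_apply]
  have e : ∀ j, (homMat g (gB g k : Mod g) i j : K) * h j =
      (if i = j then h j else 0) -
        (if j = Sum.inl ⟨k, hk⟩ then (if i = Sum.inr ⟨k, hk⟩ then h j else 0) else 0) := by
    intro j
    rw [entB h2 hk]
    rcases j with l | l
    · unfold valB
      dsimp only
      by_cases hl : (l : ℕ) = k
      · subst hl
        rw [if_pos rfl, hc_mul, hc_inv, hc_gen, hc_gen, Pi.add_apply, Pi.neg_apply, Pi.single_apply,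
          Pi.single_apply, if_pos (rfl : (Sum.inl l : Fin g ⊕ Fin g) = Sum.inl l)]
        split_ifs <;> (push_cast; ring)
      · rw [if_neg hl, hc_gen, Pi.single_apply,
          if_neg (show ¬ (Sum.inl l : Fin g ⊕ Fin g) = Sum.inl ⟨k, hk⟩ from
            fun e => hl (congrArg Fin.val (Sum.inl.inj e)))]
        split_ifs <;> (push_cast; ring)
    · show ((homologyClass (gen (Sum.inr l)) i : ℤ) : K) * _ = _
      rw [hc_gen, Pi.single_apply, if_neg (by simp : ¬ (Sum.inr l : Fin g ⊕ Fin g) = Sum.inl ⟨k, hk⟩)]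
      split_ifs <;> (push_cast; ring)
  simp only [e, Finset.sum_sub_distrib, Finset.sum_ite_eq, Finset.sum_ite_eq', Finset.mem_univ,
    if_true]
  rw [Pi.single_apply]

/-- no invariants -/
theorem inv_zero (h2 : 2 ≤ g) {h : Fin g ⊕ Fin g → K} (hh : ∀ γ : Gam g, hK g K γ h = h) :
    h = 0 := by
  funext i
  rcases i with i | i
  · have h1 := hh (gB g i)
    rw [actB h2 i.2, sub_eq_self] at h1
    have := congrFun h1 (Sum.inr i)
    simpa using this
  · have h1 := hh (gA g i)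
    rw [actA h2 i.2, add_eq_left] at h1
    have := congrFun h1 (Sum.inl i)
    simpa using this

/-- Schur's lemma -/
theorem schur (h2 : 2 ≤ g) {f : Fin g ⊕ Fin g → (Fin g ⊕ Fin g → K)}
    (hf : ∀ γ : Gam g, ∀ j, hK g K γ (f j) = ∑ i, homMat g γ i j • f i) :
    ∃ c : K, ∀ j, f j = c • Pi.single j 1 := by
  have h0 : ∀ k, ∀ hk : k < g, f (Sum.inl ⟨k, hk⟩) =
      f (Sum.inr ⟨k, hk⟩) (Sum.inr ⟨k, hk⟩) • Pi.single (Sum.inl ⟨k, hk⟩) 1 := by
    intro k hk
    have h1 := hf (gA g k) (Sum.inr ⟨k, hk⟩)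
    rw [sumA_inr h2 hk, actA h2 hk, add_right_inj] at h1
    rw [← h1, ← Pi.single_smul, smul_eq_mul, mul_one]
  have h3 : ∀ k, ∀ hk : k < g, f (Sum.inr ⟨k, hk⟩) =
      f (Sum.inl ⟨k, hk⟩) (Sum.inl ⟨k, hk⟩) • Pi.single (Sum.inr ⟨k, hk⟩) 1 := by
    intro k hk
    have h1 := hf (gB g k) (Sum.inl ⟨k, hk⟩)
    rw [sumB_inl h2 hk, actB h2 hk, sub_right_inj] at h1
    rw [← h1, ← Pi.single_smul, smul_eq_mul, mul_one]
  -- the scalar
  have hlam : ∀ k, ∀ hk : k < g, f (Sum.inr ⟨k, hk⟩) (Sum.inr ⟨k, hk⟩) =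
      f (Sum.inl ⟨k, hk⟩) (Sum.inl ⟨k, hk⟩) := by
    intro k hk
    conv_lhs => rw [h3 k hk]
    simp
  have hstep : ∀ k, ∀ hk : k + 1 < g, f (Sum.inl ⟨k, by omega⟩) (Sum.inl ⟨k, by omega⟩) =
      f (Sum.inl ⟨k + 1, hk⟩) (Sum.inl ⟨k + 1, hk⟩) := by
    intro k hk
    have h1 := hf (gT g k) (Sum.inr ⟨k, by omega⟩)
    rw [sumT_inr h2 hk] at h1
    have h4 : hK g K (gT g k) (f (Sum.inr ⟨k, by omega⟩)) =
        f (Sum.inl ⟨k, by omega⟩) (Sum.inl ⟨k, by omega⟩) •
          (Pi.single (Sum.inr ⟨k, by omega⟩) 1 + (Pi.single (Sum.inl ⟨k, by omega⟩) 1 +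
            Pi.single (Sum.inl ⟨k + 1, hk⟩) 1)) := by
      rw [h3 k (by omega), map_smul]
      congr 1
      rw [hK_single]
      have h5 := colT h2 hk (Sum.inr ⟨k, by omega⟩)
      have h6 : homologyClass (valT g k hk (Sum.inr ⟨k, by omega⟩)) =
          Pi.single (Sum.inr ⟨k, by omega⟩) 1 + (Pi.single (Sum.inl ⟨k, by omega⟩) 1 +
            Pi.single (Sum.inl ⟨k + 1, hk⟩) 1) := by
        unfold valT
        dsimp only
        rw [if_pos rfl, hc_mul, hc_gen, hcU]
      funext i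
      have h7 := congrFun (h5.trans h6) i
      have h8 : homMat g (gT g k : Mod g) i (Sum.inr ⟨k, by omega⟩) = _ := h7
      rw [h8]
      simp only [Pi.add_apply, Pi.single_apply]
      push_cast
      rfl
    rw [h4, h3 k (by omega), h0 k (by omega), h0 (k + 1) hk, hlam k (by omega), hlam (k + 1) hk]
      at h1
    have h9 := congrFun h1 (Sum.inl ⟨k + 1, hk⟩)
    simpa [Pi.single_apply] using h9
  have hall : ∀ k, ∀ hk : k < g, f (Sum.inl ⟨k, hk⟩) (Sum.inl ⟨k, hk⟩) =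
      f (Sum.inl ⟨0, by omega⟩) (Sum.inl ⟨0, by omega⟩) := by
    intro k
    induction k with
    | zero => intro _; rfl
    | succ k ih => intro hk; rw [← hstep k hk, ih (by omega)]
  refine ⟨f (Sum.inl ⟨0, by omega⟩) (Sum.inl ⟨0, by omega⟩), ?_⟩
  rintro (j | j)
  · rw [h0 j j.2, hlam j j.2, hall j j.2]
  · rw [h3 j j.2, hall j j.2]

end

end Pool.Agent.Q290.MR
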