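import Mathlib
import Pool.Agent.Q290.MR.Fld

set_option autoImplicit false

/-! Cocycles with values in sums of copies of the homology and of the trivial representation. -/

namespace Pool.Agent.Q290.MR

open Pool.Agent.H798R3.MG Pool.Agent.H29R2.MG Pool.Agent.TH35.MG Pool.Agent.Q290.MG Module

section
variable {K P : Type*} [Field K] [AddCommGroup P] [Module K P] {g : ℕ}

theorem map_fam (γ : Gam g) (L : (Fin g ⊕ Fin g → K) →ₗ[K] P) (j : Fin g ⊕ Fin g) :
    L (hK g K γ (Pi.single j 1)) = ∑ i, homMat g γ i j • L (Pi.single i 1) := by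
  have e : hK g K γ (Pi.single j 1) = ∑ i, homMat g γ i j • (Pi.single i 1 : Fin g ⊕ Fin g → K) := by
    rw [hK_single]
    funext i
    rw [Finset.sum_apply]
    simp only [Pi.smul_apply, Pi.single_apply, zsmul_eq_mul, mul_ite, mul_one, mul_zero]
    rw [Finset.sum_ite_eq]
    simp
  rw [e, map_sum]
  exact Finset.sum_congr rfl fun i _ => by rw [map_zsmul]

/-- the extension of the homology by `P` given by a cocycle -/
noncomputable def extH (σ : Gam g →* Module.End K P) (δ : Gam g → (Fin g ⊕ Fin g) → P)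
    (h : ∀ γ η j, δ (γ * η) j = ∑ i, homMat g η i j • δ γ i + σ γ (δ η j)) :
    Gam g →* Module.End K (P × (Fin g ⊕ Fin g → K)) where
  toFun γ := LinearMap.prod (σ γ ∘ₗ LinearMap.fst K _ _ +
    Fintype.linearCombination K (δ γ) ∘ₗ LinearMap.snd K _ _) (hK g K γ ∘ₗ LinearMap.snd K _ _)
  map_one' := by
    have h0 : δ 1 = 0 := by
      funext j
      have h1 := h 1 1 j
      rw [mul_one, map_one, Module.End.one_apply] at h1
      have h2 : ∑ i, homMat g (1 : Gam g) i j • δ 1 i = δ 1 j := by
        rw [Subgroup.coe_one, map_one, Finset.sum_eq_single j]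
        · rw [Matrix.one_apply_eq, one_smul]
        · intro i _ hi
          rw [Matrix.one_apply_ne hi, zero_smul]
        · intro hj; exact absurd (Finset.mem_univ _) hj
      rw [h2] at h1
      simpa using h1
    rw [h0]
    ext x
    · simp
    · simp
    · simp [Fintype.linearCombination_apply]
    · simp
  map_mul' γ η := by
    apply LinearMap.ext
    rintro ⟨p, x⟩
    have key : ∀ x : Fin g ⊕ Fin g → K, Fintype.linearCombination K (δ (γ * η)) x =
        σ γ (Fintype.linearCombination K (δ η) x) +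
          Fintype.linearCombination K (δ γ) (hK g K η x) := by
      have h3 : Fintype.linearCombination K (δ (γ * η)) =
          σ γ ∘ₗ Fintype.linearCombination K (δ η) +
            Fintype.linearCombination K (δ γ) ∘ₗ hK g K η := by
        apply LinearMap.pi_ext'
        intro j
        apply LinearMap.ext_ring
        show Fintype.linearCombination K (δ (γ * η)) (Pi.single j 1) =
          σ γ (Fintype.linearCombination K (δ η) (Pi.single j 1)) +
            Fintype.linearCombination K (δ γ) (hK g K η (Pi.single j 1))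
        rw [map_fam]
        simp only [Fintype.linearCombination_apply_single, one_smul]
        rw [h γ η j, add_comm]
      intro x
      exact LinearMap.congr_fun h3 x
    rw [Module.End.mul_apply]
    ext1
    · show σ (γ * η) p + Fintype.linearCombination K (δ (γ * η)) x =
        σ γ (σ η p + Fintype.linearCombination K (δ η) x) +
          Fintype.linearCombination K (δ γ) (hK g K η x)
      rw [key, map_mul, Module.End.mul_apply, map_add, add_assoc]
    · show hK g K ((γ * η : Gam g) : Mod g) x = hK g K γ (hK g K η x)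
      rw [Subgroup.coe_mul, map_mul, Module.End.mul_apply]

theorem extH_apply (σ : Gam g →* Module.End K P) (δ : Gam g → (Fin g ⊕ Fin g) → P)
    (h : ∀ γ η j, δ (γ * η) j = ∑ i, homMat g η i j • δ γ i + σ γ (δ η j)) (γ : Gam g)
    (p : P) (x : Fin g ⊕ Fin g → K) : extH σ δ h γ (p, x) =
      (σ γ p + Fintype.linearCombination K (δ γ) x, hK g K γ x) := rfl

/-- the extension of the trivial representation by `P` given by a cocycle -/
noncomputable def extK (σ : Gam g →* Module.End K P) (c : Gam g → P)
    (h : ∀ γ η, c (γ * η) = c γ + σ γ (c η)) :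
    Gam g →* Module.End K (P × K) where
  toFun γ := LinearMap.prod (σ γ ∘ₗ LinearMap.fst K _ _ +
    LinearMap.toSpanSingleton K P (c γ) ∘ₗ LinearMap.snd K _ _) (LinearMap.snd K _ _)
  map_one' := by
    have h0 : c 1 = 0 := by
      have h1 := h 1 1
      rw [mul_one, map_one, Module.End.one_apply] at h1
      simpa using h1
    rw [h0]
    ext x
    · simp
    · simp
    · simp
    · simp
  map_mul' γ η := by
    apply LinearMap.ext
    rintro ⟨p, x⟩
    rw [Module.End.mul_apply]
    ext1
    · show σ (γ * η) p + x • c (γ * η) = σ γ (σ η p + x • c η) + x • c γ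
      rw [h, map_mul, Module.End.mul_apply, map_add, map_smul, smul_add]
      abel
    · rfl

theorem extK_apply (σ : Gam g →* Module.End K P) (c : Gam g → P)
    (h : ∀ γ η, c (γ * η) = c γ + σ γ (c η)) (γ : Gam g)
    (p : P) (x : K) : extK σ c h γ (p, x) = (σ γ p + x • c γ, x) := rfl

theorem fr_prod [FiniteDimensional K P] :
    finrank K (P × (Fin g ⊕ Fin g → K)) = finrank K P + 2 * g := by
  rw [Module.finrank_prod, finrank_fintype_fun_eq_card, Fintype.card_sum, Fintype.card_fin,
    two_mul]

/-- cocycles with values in maps from the homology to a small representation are coboundaries -/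
theorem base_H [FiniteDimensional K P] (hg : 10 ≤ g) (h2 : 2 * (g : K) - 2 ≠ 0)
    (hd : finrank K P + 2 * g < 2 * g * (g - 1)) (σ : Gam g →* Module.End K P)
    (δ : Gam g → (Fin g ⊕ Fin g) → P)
    (h : ∀ γ η j, δ (γ * η) j = ∑ i, homMat g η i j • δ γ i + σ γ (δ η j)) :
    ∃ E : Fin g ⊕ Fin g → P, ∀ γ j, δ γ j = ∑ i, homMat g γ i j • E i - σ γ (E j) := by
  classical
  have hS : StdSum (extH σ δ h) := stdSum_of hg (by rw [fr_prod]; exact hd) (Or.inl h2)
  obtain ⟨a, b, w, hw⟩ := hS
  have hblk : ∀ k, ∃ c : K, ∀ j, (w (Sum.inl (k, j))).2 = c • Pi.single j 1 := by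
    intro k
    apply schur (by omega)
    intro γ j
    have h1 := (homBlock_iff _ _).1 (hw.1 k) γ j
    have h3 := congrArg (LinearMap.snd K P (Fin g ⊕ Fin g → K)) h1
    rw [map_sum] at h3
    simp only [map_zsmul] at h3
    exact h3
  have hinr : ∀ k, (w (Sum.inr k)).2 = 0 := by
    intro k
    apply inv_zero (by omega : 2 ≤ g)
    intro γ
    exact congrArg Prod.snd (hw.2 k γ)
  choose c hc using hblk
  obtain ⟨k, hk⟩ : ∃ k, c k ≠ 0 := by
    by_contra hcon
    push Not at hcon
    have hz : LinearMap.snd K P (Fin g ⊕ Fin g → K) = 0 := by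
      apply w.ext
      rintro (⟨k, j⟩ | k)
      · show (w (Sum.inl (k, j))).2 = 0
        rw [hc, hcon, zero_smul]
      · exact hinr k
    have h4 := LinearMap.congr_fun hz (0, Pi.single (Sum.inl ⟨0, by omega⟩) 1)
    have h5 := congrFun h4 (Sum.inl ⟨0, by omega⟩)
    simp at h5
  refine ⟨fun j => (c k)⁻¹ • (w (Sum.inl (k, j))).1, fun γ j => ?_⟩
  have h1 := (homBlock_iff _ _).1 (hw.1 k) γ j
  have h6 : w (Sum.inl (k, j)) = ((w (Sum.inl (k, j))).1, c k • Pi.single j 1) :=
    Prod.ext rfl (hc k j)
  have h7 : (extH σ δ h γ (w (Sum.inl (k, j)))).1 =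
      σ γ (w (Sum.inl (k, j))).1 + c k • δ γ j := by
    conv_lhs => rw [h6, extH_apply]
    simp [Fintype.linearCombination_apply_single]
  have h8 := congrArg (LinearMap.fst K P (Fin g ⊕ Fin g → K)) h1
  rw [map_sum] at h8
  simp only [map_zsmul] at h8
  have h9 : σ γ (w (Sum.inl (k, j))).1 + c k • δ γ j =
      ∑ i, homMat g γ i j • (w (Sum.inl (k, i))).1 := by
    rw [← h7]; exact h8
  have h10 : c k • δ γ j = ∑ i, homMat g γ i j • (w (Sum.inl (k, i))).1 -
      σ γ (w (Sum.inl (k, j))).1 := by rw [← h9]; abel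
  have h11 : δ γ j = (c k)⁻¹ • (c k • δ γ j) := by rw [smul_smul, inv_mul_cancel₀ hk, one_smul]
  rw [h11, h10, smul_sub, map_smul, Finset.smul_sum]
  congr 1
  exact Finset.sum_congr rfl fun i _ => smul_comm _ _ _

/-- cocycles with values in a small representation are coboundaries -/
theorem base_K [FiniteDimensional K P] (hg : 10 ≤ g) (h2 : 2 * (g : K) - 2 ≠ 0)
    (hd : finrank K P + 1 < 2 * g * (g - 1)) (σ : Gam g →* Module.End K P)
    (c : Gam g → P) (h : ∀ γ η, c (γ * η) = c γ + σ γ (c η)) :
    ∃ e : P, ∀ γ, c γ = e - σ γ e := by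
  classical
  have hS : StdSum (extK σ c h) := stdSum_of hg
    (by rw [Module.finrank_prod, finrank_self]; exact hd) (Or.inl h2)
  obtain ⟨a, b, w, hw⟩ := hS
  have hblk : ∀ k j, (w (Sum.inl (k, j))).2 = 0 := by
    intro k
    have h1 : ∀ γ : Gam g, ∀ j, (w (Sum.inl (k, j))).2 =
        ∑ i, homMat g γ i j • (w (Sum.inl (k, i))).2 := by
      intro γ j
      have h1 := (homBlock_iff _ _).1 (hw.1 k) γ j
      have h3 := congrArg (LinearMap.snd K P K) h1
      rw [map_sum] at h3
      simp only [map_zsmul] at h3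
      exact h3
    have hA : ∀ l : Fin g, (w (Sum.inl (k, Sum.inl l))).2 = 0 := by
      intro l
      have h4 := h1 (gA g l) (Sum.inr l)
      rw [sumA_inr (by omega) l.2 (fun i => (w (Sum.inl (k, i))).2)] at h4
      exact (left_eq_add.1 h4)
    rintro (l | l)
    · exact hA l
    · have h4 := h1 (gB g l) (Sum.inl l)
      rw [sumB_inl (by omega) l.2 (fun i => (w (Sum.inl (k, i))).2)] at h4
      exact (sub_eq_self.1 h4.symm)
  obtain ⟨k, hk⟩ : ∃ k, (w (Sum.inr k)).2 ≠ 0 := by
    by_contra hcon
    push Not at hcon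
    have hz : LinearMap.snd K P K = 0 := by
      apply w.ext
      rintro (⟨k, j⟩ | k)
      · exact hblk k j
      · exact hcon k
    have h4 := LinearMap.congr_fun hz (0, 1)
    simp at h4
  refine ⟨(w (Sum.inr k)).2⁻¹ • (w (Sum.inr k)).1, fun γ => ?_⟩
  have h1 := congrArg Prod.fst (hw.2 k γ)
  have h6 : w (Sum.inr k) = ((w (Sum.inr k)).1, (w (Sum.inr k)).2) := rfl
  have h7 : σ γ (w (Sum.inr k)).1 + (w (Sum.inr k)).2 • c γ = (w (Sum.inr k)).1 := by
    rw [h6, extK_apply] at h1
    exact h1
  have h10 : (w (Sum.inr k)).2 • c γ = (w (Sum.inr k)).1 - σ γ (w (Sum.inr k)).1 := by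
    rw [eq_sub_iff_add_eq, add_comm]; exact h7
  have h11 : c γ = (w (Sum.inr k)).2⁻¹ • ((w (Sum.inr k)).2 • c γ) := by
    rw [smul_smul, inv_mul_cancel₀ hk, one_smul]
  rw [h11, h10, smul_sub, map_smul]

end

end Pool.Agent.Q290.MR
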