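import Mathlib
import Pool.Agent.Q290.MR.Coh

set_option autoImplicit false

/-! Cocycles with values in sums of copies of the homology and of the trivial representation, of
any dimension. -/

namespace Pool.Agent.Q290.MR

open Pool.Agent.H798R3.MG Pool.Agent.H29R2.MG Pool.Agent.TH35.MG Pool.Agent.Q290.MG Module

section
variable {K P : Type*} [Field K] [AddCommGroup P] [Module K P] {g a b : ℕ}

/-- projection to the block `k` -/
noncomputable def prH (w : Basis ((Fin b × (Fin g ⊕ Fin g)) ⊕ Fin a) K P) (k : Fin b) :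
    P →ₗ[K] (Fin g ⊕ Fin g → K) where
  toFun x := fun i => w.repr x (Sum.inl (k, i))
  map_add' x y := by funext i; simp
  map_smul' c x := by funext i; simp

/-- projection to the invariant vector `k` -/
noncomputable def prK (w : Basis ((Fin b × (Fin g ⊕ Fin g)) ⊕ Fin a) K P) (k : Fin a) :
    P →ₗ[K] K where
  toFun x := w.repr x (Sum.inr k)
  map_add' x y := by simp
  map_smul' c x := by simp

theorem prH_eq {σ : Gam g →* Module.End K P}
    {w : Basis ((Fin b × (Fin g ⊕ Fin g)) ⊕ Fin a) K P}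
    (hw : (∀ k, HomBlock σ fun j => w (Sum.inl (k, j))) ∧
      ∀ k γ, σ γ (w (Sum.inr k)) = w (Sum.inr k)) (k : Fin b) (γ : Gam g) (x : P) :
    prH w k (σ γ x) = hK g K γ (prH w k x) := by
  classical
  have e : prH w k ∘ₗ σ γ = hK g K γ ∘ₗ prH w k := by
    apply w.ext
    rintro (⟨l, j⟩ | l)
    · show prH w k (σ γ (w (Sum.inl (l, j)))) = hK g K γ (prH w k (w (Sum.inl (l, j))))
      rw [(homBlock_iff _ _).1 (hw.1 l) γ j, map_sum]
      by_cases hl : l = k
      · subst hl
        have h1 : ∀ i, prH w l (w (Sum.inl (l, i))) = Pi.single i 1 := by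
          intro i
          funext m
          show w.repr (w (Sum.inl (l, i))) (Sum.inl (l, m)) = _
          rw [Basis.repr_self, Finsupp.single_apply, Pi.single_apply]
          simp [eq_comm]
        rw [h1, hK_single]
        funext m
        rw [Finset.sum_apply]
        simp only [map_zsmul, h1, Pi.smul_apply, Pi.single_apply, zsmul_eq_mul, mul_ite, mul_one,
          mul_zero]
        rw [Finset.sum_ite_eq]
        simp
      · have h1 : ∀ i, prH w k (w (Sum.inl (l, i))) = 0 := by
          intro i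
          funext m
          show w.repr (w (Sum.inl (l, i))) (Sum.inl (k, m)) = _
          rw [Basis.repr_self, Finsupp.single_apply, if_neg (by simp [hl])]
          rfl
        rw [h1, map_zero]
        apply Finset.sum_eq_zero
        intro i _
        rw [map_zsmul, h1, smul_zero]
    · show prH w k (σ γ (w (Sum.inr l))) = hK g K γ (prH w k (w (Sum.inr l)))
      have h1 : prH w k (w (Sum.inr l)) = 0 := by
        funext m
        show w.repr (w (Sum.inr l)) (Sum.inl (k, m)) = _
        rw [Basis.repr_self, Finsupp.single_apply, if_neg (by simp)]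
        rfl
      rw [hw.2 l γ, h1, map_zero]
  exact LinearMap.congr_fun e x

theorem prK_eq {σ : Gam g →* Module.End K P}
    {w : Basis ((Fin b × (Fin g ⊕ Fin g)) ⊕ Fin a) K P}
    (hw : (∀ k, HomBlock σ fun j => w (Sum.inl (k, j))) ∧
      ∀ k γ, σ γ (w (Sum.inr k)) = w (Sum.inr k)) (k : Fin a) (γ : Gam g) (x : P) :
    prK w k (σ γ x) = prK w k x := by
  classical
  have e : prK w k ∘ₗ σ γ = prK w k := by
    apply w.ext
    rintro (⟨l, j⟩ | l)
    · show prK w k (σ γ (w (Sum.inl (l, j)))) = prK w k (w (Sum.inl (l, j)))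
      have h1 : ∀ i, prK w k (w (Sum.inl (l, i))) = 0 := by
        intro i
        show w.repr (w (Sum.inl (l, i))) (Sum.inr k) = _
        rw [Basis.repr_self, Finsupp.single_apply, if_neg (by simp)]
      rw [(homBlock_iff _ _).1 (hw.1 l) γ j, map_sum, h1]
      apply Finset.sum_eq_zero
      intro i _
      rw [map_zsmul, h1, smul_zero]
    · show prK w k (σ γ (w (Sum.inr l))) = prK w k (w (Sum.inr l))
      rw [hw.2 l γ]
  exact LinearMap.congr_fun e x

theorem pr_ext {w : Basis ((Fin b × (Fin g ⊕ Fin g)) ⊕ Fin a) K P} {x y : P}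
    (h1 : ∀ k, prH w k x = prH w k y) (h2 : ∀ k, prK w k x = prK w k y) : x = y := by
  apply w.repr.injective
  ext i
  rcases i with ⟨k, i⟩ | k
  · exact congrFun (h1 k) i
  · exact h2 k

theorem pr_exists (w : Basis ((Fin b × (Fin g ⊕ Fin g)) ⊕ Fin a) K P)
    (u : Fin b → Fin g ⊕ Fin g → K) (z : Fin a → K) :
    ∃ x : P, (∀ k, prH w k x = u k) ∧ ∀ k, prK w k x = z k := by
  refine ⟨w.repr.symm (Finsupp.equivFunOnFinite.symm
    (Sum.elim (fun q => u q.1 q.2) z)), fun k => ?_, fun k => ?_⟩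
  · funext i
    show w.repr (w.repr.symm _) _ = _
    rw [LinearEquiv.apply_symm_apply]
    rfl
  · show w.repr (w.repr.symm _) _ = _
    rw [LinearEquiv.apply_symm_apply]
    rfl

theorem std_H (hg : 10 ≤ g) (h2 : 2 * (g : K) - 2 ≠ 0) {σ : Gam g →* Module.End K P}
    (hS : StdSum σ) (δ : Gam g → (Fin g ⊕ Fin g) → P)
    (h : ∀ γ η j, δ (γ * η) j = ∑ i, homMat g η i j • δ γ i + σ γ (δ η j)) :
    ∃ E : Fin g ⊕ Fin g → P, ∀ γ j, δ γ j = ∑ i, homMat g γ i j • E i - σ γ (E j) := by
  classical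
  obtain ⟨a, b, w, hw⟩ := hS
  have hgg : 18 * g ≤ 2 * g * (g - 1) := by
    have h1 : 9 ≤ g - 1 := by omega
    have h3 : 2 * g * 9 ≤ 2 * g * (g - 1) := Nat.mul_le_mul_left _ h1
    omega
  have hH : ∀ k, ∃ E : Fin g ⊕ Fin g → (Fin g ⊕ Fin g → K), ∀ γ : Gam g, ∀ j,
      prH w k (δ γ j) = ∑ i, homMat g γ i j • E i - hK g K γ (E j) := by
    intro k
    apply base_H hg h2 _ ((hK g K).comp (Gam g).subtype) (fun γ j => prH w k (δ γ j))
    · intro γ η j
      rw [h, map_add, map_sum, prH_eq hw]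
      congr 1
      exact Finset.sum_congr rfl fun i _ => map_zsmul _ _ _
    · rw [finrank_fintype_fun_eq_card, Fintype.card_sum, Fintype.card_fin]
      omega
  have hT : ∀ k, ∃ E : Fin g ⊕ Fin g → K, ∀ γ : Gam g, ∀ j,
      prK w k (δ γ j) = ∑ i, homMat g γ i j • E i - E j := by
    intro k
    apply base_H hg h2 _ (1 : Gam g →* Module.End K K) (fun γ j => prK w k (δ γ j))
    · intro γ η j
      rw [h, map_add, map_sum, prK_eq hw]
      congr 1
      exact Finset.sum_congr rfl fun i _ => map_zsmul _ _ _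
    · rw [finrank_self]
      omega
  choose EH hEH using hH
  choose ET hET using hT
  have hE : ∀ j, ∃ x : P, (∀ k, prH w k x = EH k j) ∧ ∀ k, prK w k x = ET k j :=
    fun j => pr_exists w (fun k => EH k j) (fun k => ET k j)
  choose E hE1 hE2 using hE
  refine ⟨E, fun γ j => pr_ext (w := w) (fun k => ?_) fun k => ?_⟩
  · rw [hEH k γ j, map_sub, map_sum, prH_eq hw, hE1]
    congr 1
    exact Finset.sum_congr rfl fun i _ => by rw [map_zsmul, hE1]
  · rw [hET k γ j, map_sub, map_sum, prK_eq hw, hE2]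
    congr 1
    exact Finset.sum_congr rfl fun i _ => by rw [map_zsmul, hE2]

theorem std_K (hg : 10 ≤ g) (h2 : 2 * (g : K) - 2 ≠ 0) {σ : Gam g →* Module.End K P}
    (hS : StdSum σ) (c : Gam g → P) (h : ∀ γ η, c (γ * η) = c γ + σ γ (c η)) :
    ∃ e : P, ∀ γ, c γ = e - σ γ e := by
  classical
  obtain ⟨a, b, w, hw⟩ := hS
  have hgg : 18 * g ≤ 2 * g * (g - 1) := by
    have h1 : 9 ≤ g - 1 := by omega
    have h3 : 2 * g * 9 ≤ 2 * g * (g - 1) := Nat.mul_le_mul_left _ h1
    omega
  have hH : ∀ k, ∃ e : (Fin g ⊕ Fin g → K), ∀ γ : Gam g,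
      prH w k (c γ) = e - hK g K γ e := by
    intro k
    apply base_K hg h2 _ ((hK g K).comp (Gam g).subtype) (fun γ => prH w k (c γ))
    · intro γ η
      rw [h, map_add, prH_eq hw]
      rfl
    · rw [finrank_fintype_fun_eq_card, Fintype.card_sum, Fintype.card_fin]
      omega
  have hT : ∀ k, ∃ e : K, ∀ γ : Gam g, prK w k (c γ) = e - e := by
    intro k
    apply base_K hg h2 _ (1 : Gam g →* Module.End K K) (fun γ => prK w k (c γ))
    · intro γ η
      rw [h, map_add, prK_eq hw]
      rfl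
    · rw [finrank_self]
      omega
  choose EH hEH using hH
  choose ET hET using hT
  obtain ⟨e, he1, he2⟩ := pr_exists w EH ET
  refine ⟨e, fun γ => pr_ext (w := w) (fun k => ?_) fun k => ?_⟩
  · rw [hEH k γ, map_sub, prH_eq hw, he1]
  · rw [hET k γ, map_sub, prK_eq hw, he2]

end

end Pool.Agent.Q290.MR
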