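import Mathlib
import Pool.Agent.Q290.MG.CgDef

set_option autoImplicit false

/-! Representations of the group generated by the twists on modules over a commutative ring:
definitions. -/

namespace Pool.Agent.Q290.MR

open Pool.Agent.H29R2.MG Pool.Agent.TH35.MG Pool.Agent.Q290.MG

universe u v

section
variable {R M : Type*} [CommRing R] [AddCommGroup M] [Module R M] {g : ℕ}

/-- the action of the automorphism `τ` on `H_1(Σ_g; ℤ) ⊗ X = X^{2g}`, by the matrix of `τ` on
`H_1(Σ_g; ℤ) = ℤ^{2g}`, whose column `j` is the homology class of `τ(gen j)` -/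
def homAct {X : Type*} [AddCommGroup X] (τ : orientedAut g) (u : Fin g ⊕ Fin g → X) :
    Fin g ⊕ Fin g → X :=
  fun i => ∑ j, homologyClass (applyAut g τ (gen j)) i • u j

/-- The class of the automorphism `τ` acts on `X^{2g}` by the matrix of `τ` on the homology and
trivially on `Y`: the map `e : X^{2g} × Y → M` is equivariant. -/
def Equivar {X Y : Type*} [AddCommGroup X] (ρ : Gam g →* Module.End R M)
    (e : (Fin g ⊕ Fin g → X) × Y → M) : Prop :=
  ∀ (γ : Gam g) (τ : orientedAut g), classOf g τ = γ → ∀ (u : Fin g ⊕ Fin g → X) (y : Y),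
    ρ γ (e (u, y)) = e (homAct τ u, y)

/-- The module `M` is `(H_1(Σ_g; ℤ) ⊗ X) ⊕ Y` for two modules `X`, `Y` on which `Γ` acts trivially:
there is an equivariant linear bijection `e : X^{2g} × Y → M`. -/
def HomTriv (ρ : Gam g →* Module.End R M) : Prop :=
  ∃ (X : Submodule R (Fin g ⊕ Fin g → M)) (Y : Submodule R M)
    (e : (Fin g ⊕ Fin g → X) × Y → M), IsLinearMap R e ∧ Function.Bijective e ∧ Equivar ρ e

/-- the elements of `Γ` which act trivially on `H_1(Σ_g; ℤ)` act trivially on `M` -/
def KillsTorelli (ρ : Gam g →* Module.End R M) : Prop :=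
  ∀ (γ : Gam g) (τ : orientedAut g), classOf g τ = γ →
    (∀ j, homologyClass (applyAut g τ (gen j)) = homologyClass (gen j)) → ρ γ = 1

end

/-- the `R`-module `M` is generated by `d` elements -/
def GenBy (R M : Type*) [CommRing R] [AddCommGroup M] [Module R M] (d : ℕ) : Prop :=
  ∃ s : Fin d → M, Submodule.span R (Set.range s) = ⊤

/-- the `R`-module `M` is generated by fewer than `2g(g-1)` elements -/
def FewGens (g : ℕ) (R M : Type*) [CommRing R] [AddCommGroup M] [Module R M] : Prop :=
  ∃ d, d < 2 * g * (g - 1) ∧ GenBy R M d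

/-- multiplication by `2g - 2` is injective on `M` -/
def NoTors (g : ℕ) (R M : Type*) [CommRing R] [AddCommGroup M] [Module R M] : Prop :=
  ∀ m : M, (2 * (g : R) - 2) • m = 0 → m = 0

/-- every action on a module with fewer than `2g(g-1)` generators over a commutative ring in which
`2g - 2` is invertible is of the form `(H_1 ⊗ X) ⊕ Y` -/
def UnitCase (g : ℕ) : Prop :=
  ∀ (R : Type u) [CommRing R] (M : Type v) [AddCommGroup M] [Module R M]
    (ρ : Gam g →* Module.End R M), FewGens g R M → IsUnit (2 * (g : R) - 2) → HomTriv ρ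

/-- every action on a module with fewer than `2g(g-1)` generators over a commutative ring, without
`(2g-2)`-torsion, is trivial on the elements acting trivially on `H_1(Σ_g; ℤ)` -/
def TorsionFreeCase (g : ℕ) : Prop :=
  ∀ (R : Type u) [CommRing R] (M : Type v) [AddCommGroup M] [Module R M]
    (ρ : Gam g →* Module.End R M), FewGens g R M → NoTors g R M → KillsTorelli ρ

/-- over every nonzero commutative ring there is an action on a module with `g(2g-1)` generators
which is not of the form `(H_1 ⊗ X) ⊕ Y` -/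
def OtherModule (g : ℕ) : Prop :=
  ∀ (R : Type u) [CommRing R] [Nontrivial R],
    ∃ (M : Type u) (_ : AddCommGroup M) (_ : Module R M) (ρ : Gam g →* Module.End R M),
      GenBy R M (g * (2 * g - 1)) ∧ ¬ HomTriv ρ

/-- the kernel of `ρ` consists of the elements acting trivially on `H_1(Σ_g; ℤ/n)` for some
`n ≥ 1` -/
def KerLevel {R M : Type*} [CommRing R] [AddCommGroup M] [Module R M] {g : ℕ}
    (ρ : Gam g →* Module.End R M) : Prop :=
  ∃ n : ℕ, 1 ≤ n ∧ ∀ γ : Gam g, ρ γ = 1 ↔ ActsTrivMod g n γ

/-- For every action of `Γ` on a module with fewer than `2g(g-1)` generators and without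
`(2g-2)`-torsion over a commutative ring, if the module is finite or the kernel has finite index,
then the kernel is the subgroup of the elements acting trivially on `H_1(Σ_g; ℤ/n)` for some
`n ≥ 1`, and every subgroup containing it contains a congruence subgroup. -/
def ModuleCase (g : ℕ) : Prop :=
  ∀ (R : Type u) [CommRing R] (M : Type v) [AddCommGroup M] [Module R M]
    (ρ : Gam g →* Module.End R M), FewGens g R M → NoTors g R M →
    (Finite M ∨ ρ.ker.FiniteIndex) →
    KerLevel ρ ∧ ∀ N : Subgroup (Gam g), ρ.ker ≤ N → IsCongruence N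

/-- the group `N₁/N` is abelian -/
def AbSection {g : ℕ} (N N₁ : Subgroup (Gam g)) : Prop :=
  ∀ x ∈ N₁, ∀ y ∈ N₁, x * y * x⁻¹ * y⁻¹ ∈ N

/-- no element of `N₁/N` other than `1` has order dividing `2g - 2` -/
def SectionNoTors {g : ℕ} (N N₁ : Subgroup (Gam g)) : Prop :=
  ∀ x ∈ N₁, x ^ (2 * g - 2) ∈ N → x ∈ N

/-- `N₁/N` is generated by fewer than `2g(g-1)` elements -/
def SectionFewGens {g : ℕ} (N N₁ : Subgroup (Gam g)) : Prop :=
  ∃ (d : ℕ) (s : Fin d → Gam g), d < 2 * g * (g - 1) ∧ (∀ i, s i ∈ N₁) ∧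
    N₁ ≤ Subgroup.closure (Set.range s) ⊔ N

/-- the element `γ` acts trivially on `N₁/N` by conjugation -/
def Centralizes {g : ℕ} (N N₁ : Subgroup (Gam g)) (γ : Gam g) : Prop :=
  ∀ x ∈ N₁, γ * x * γ⁻¹ * x⁻¹ ∈ N

/-- Let `N ≤ N₁` be normal subgroups, `N` of finite index, such that `N₁/N` is abelian, generated
by fewer than `2g(g-1)` elements and without nontrivial elements of order dividing `2g - 2`. Then
the centralizer of `N₁/N` consists of the elements acting trivially on `H_1(Σ_g; ℤ/n)` for some
`n ≥ 1`. -/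
def SectionCase (g : ℕ) : Prop :=
  ∀ N N₁ : Subgroup (Gam g), N.Normal → N₁.Normal → N ≤ N₁ → N.FiniteIndex →
    AbSection N N₁ → SectionNoTors N N₁ → SectionFewGens N N₁ →
    ∃ n : ℕ, 1 ≤ n ∧ ∀ γ : Gam g, Centralizes N N₁ γ ↔ ActsTrivMod g n γ

end Pool.Agent.Q290.MR
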