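import Mathlib
import Pool.Agent.Q290.MR.Coh2

set_option autoImplicit false

/-! Representations on modules over a commutative ring: the inductive step. -/

namespace Pool.Agent.Q290.MR

open Pool.Agent.H798R3.MG Pool.Agent.H29R2.MG Pool.Agent.TH35.MG Pool.Agent.Q290.MG Module

section
variable {R M : Type*} [CommRing R] [AddCommGroup M] [Module R M] {g : ℕ}

/-- modulo `N` the group acts on the family `x` as on the homology -/
def BlkMod (ρ : Gam g →* Module.End R M) (N : Submodule R M) (x : Fin g ⊕ Fin g → M) : Prop :=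
  ∀ γ : Gam g, ∀ j, ρ γ (x j) - ∑ i, homMat g γ i j • x i ∈ N

/-- the element `y` is invariant modulo `N` -/
def InvMod (ρ : Gam g →* Module.End R M) (N : Submodule R M) (y : M) : Prop :=
  ∀ γ : Gam g, ρ γ y - y ∈ N

/-- the submodule generated by `N`, the members of the families on which the group acts as on the
homology modulo `N`, and the elements invariant modulo `N` -/
def spn (ρ : Gam g →* Module.End R M) (N : Submodule R M) : Submodule R M :=
  Submodule.span R ({z | ∃ x, BlkMod ρ N x ∧ ∃ j, z = x j} ∪ {y | InvMod ρ N y}) ⊔ N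

variable {ρ : Gam g →* Module.End R M} {N : Submodule R M}

theorem blk_mem {x : Fin g ⊕ Fin g → M} (h : BlkMod ρ N x) (j : Fin g ⊕ Fin g) :
    x j ∈ spn ρ N :=
  Submodule.mem_sup_left (Submodule.subset_span (Or.inl ⟨x, h, j, rfl⟩))

theorem inv_mem' {y : M} (h : InvMod ρ N y) : y ∈ spn ρ N :=
  Submodule.mem_sup_left (Submodule.subset_span (Or.inr h))

theorem le_spn : N ≤ spn ρ N := le_sup_right

theorem step {K P : Type*} [Field K] [AddCommGroup P] [Module K P] (hg : 10 ≤ g)
    (h2 : 2 * (g : K) - 2 ≠ 0) (hN : ∀ γ, ∀ x ∈ N, ρ γ x ∈ N) (a : R)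
    (φ : R →+* K) (hφ : Function.Surjective φ) (q : M →+ P) (hq : Function.Surjective q)
    (hqφ : ∀ (r : R) (x : M), q (r • x) = φ r • q x) (σ : Gam g →* Module.End K P)
    (hσ : ∀ γ x, q (ρ γ x) = σ γ (q x)) (hk : ∀ x, q x = 0 ↔ a • x ∈ N) (hS : StdSum σ)
    (htop : spn ρ (N ⊔ LinearMap.range (LinearMap.lsmul R M a)) = ⊤) : spn ρ N = ⊤ := by
  classical
  have hk' : ∀ x y, q x = q y → a • x - a • y ∈ N := by
    intro x y hxy
    rw [← smul_sub, ← hk, map_sub, hxy, sub_self]
  -- the multiples of `a`
  have h1 : ∀ x : M, a • x ∈ spn ρ N := by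
    intro x
    obtain ⟨n, b, w, hw⟩ := id hS
    choose l hl using fun i => hq (w i)
    choose r hr using fun i => hφ (w.repr (q x) i)
    have e : q x = q (∑ i, r i • l i) := by
      rw [map_sum]
      conv_lhs => rw [← w.sum_repr (q x)]
      exact Finset.sum_congr rfl fun i _ => by rw [hqφ, hl, hr]
    have h3 := hk' _ _ e
    have h4 : a • ∑ i, r i • l i ∈ spn ρ N := by
      rw [Finset.smul_sum]
      refine Submodule.sum_mem _ fun i _ => ?_
      rw [smul_comm]
      refine Submodule.smul_mem _ _ ?_
      rcases i with ⟨k, j⟩ | k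
      · refine blk_mem (x := fun j => a • l (Sum.inl (k, j))) ?_ j
        intro γ j
        have h5 : q (ρ γ (l (Sum.inl (k, j))) - ∑ i, homMat g γ i j • l (Sum.inl (k, i))) = 0 := by
          rw [map_sub, map_sum, hσ, hl, (homBlock_iff _ _).1 (hw.1 k) γ j, sub_eq_zero]
          exact Finset.sum_congr rfl fun i _ => by rw [map_zsmul, hl]
        have h6 := (hk _).1 h5
        rw [smul_sub, Finset.smul_sum] at h6
        show ρ γ (a • l (Sum.inl (k, j))) - ∑ i, homMat g γ i j • a • l (Sum.inl (k, i)) ∈ N
        rw [map_smul]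
        simp only [smul_comm a] at h6
        exact h6
      · refine inv_mem' ?_
        intro γ
        have h5 : q (ρ γ (l (Sum.inr k)) - l (Sum.inr k)) = 0 := by
          rw [map_sub, hσ, hl, hw.2 k γ, sub_self]
        have h6 := (hk _).1 h5
        rw [smul_sub] at h6
        rw [map_smul]
        exact h6
    have h5 : a • x = (a • x - a • ∑ i, r i • l i) + a • ∑ i, r i • l i := by abel
    rw [h5]
    exact Submodule.add_mem _ (le_spn h3) h4
  have hdec : ∀ z ∈ N ⊔ LinearMap.range (LinearMap.lsmul R M a), ∃ p : M, z - a • p ∈ N := by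
    intro z hz
    obtain ⟨n, hn, y, ⟨p, rfl⟩, rfl⟩ := Submodule.mem_sup.1 hz
    refine ⟨p, ?_⟩
    rw [LinearMap.lsmul_apply, add_sub_cancel_right]
    exact hn
  -- lifting families
  have h3 : ∀ x, BlkMod ρ (N ⊔ LinearMap.range (LinearMap.lsmul R M a)) x → ∀ j,
      x j ∈ spn ρ N := by
    intro x hx j
    choose p hp using fun γ j => hdec _ (hx γ j)
    obtain ⟨E, hE⟩ := std_H hg h2 hS (fun γ j => q (p γ j)) (by
      intro γ η j
      have e1 : ρ (γ * η) (x j) - ∑ i, homMat g (γ * η : Gam g) i j • x i =
          ∑ i, homMat g η i j • (ρ γ (x i) - ∑ l, homMat g γ l i • x l) +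
            ρ γ (ρ η (x j) - ∑ i, homMat g η i j • x i) := by
        rw [map_mul, Module.End.mul_apply, map_sub, map_sum]
        simp only [map_zsmul, smul_sub, Finset.sum_sub_distrib, Finset.smul_sum, smul_smul,
          Subgroup.coe_mul, map_mul, Matrix.mul_apply, Finset.sum_smul]
        have e2 : ∑ i, ∑ l, (homMat g γ i l * homMat g η l j) • x i =
            ∑ l, ∑ i, (homMat g η l j * homMat g γ i l) • x i := by
          rw [Finset.sum_comm]
          exact Finset.sum_congr rfl fun _ _ => Finset.sum_congr rfl fun _ _ => by rw [mul_comm]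
        rw [e2]
        abel
      have e3 : q (p (γ * η) j) = q (∑ i, homMat g η i j • p γ i + ρ γ (p η j)) := by
        rw [← sub_eq_zero, ← map_sub, hk]
        have e4 : a • (p (γ * η) j - (∑ i, homMat g η i j • p γ i + ρ γ (p η j))) =
            -((ρ (γ * η) (x j) - ∑ i, homMat g (γ * η : Gam g) i j • x i) - a • p (γ * η) j) +
            (∑ i, homMat g η i j • ((ρ γ (x i) - ∑ l, homMat g γ l i • x l) - a • p γ i) +
              ρ γ ((ρ η (x j) - ∑ i, homMat g η i j • x i) - a • p η j)) := by
          rw [e1]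
          simp only [smul_sub, smul_add, Finset.smul_sum, map_sub, map_smul,
            Finset.sum_sub_distrib, smul_comm a]
          abel
        rw [e4]
        refine Submodule.add_mem _ (Submodule.neg_mem _ (hp _ _))
          (Submodule.add_mem _ (Submodule.sum_mem _ fun i _ => ?_) (hN _ _ (hp _ _)))
        exact zsmul_mem (hp _ _) _
      rw [e3, map_add, map_sum, hσ]
      congr 1
      exact Finset.sum_congr rfl fun i _ => map_zsmul _ _ _)
    choose F hF using fun j => hq (E j)
    have hblk : BlkMod ρ N fun j => x j + a • F j := by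
      intro γ j
      have e5 : q (p γ j) = q (∑ i, homMat g γ i j • F i - ρ γ (F j)) := by
        rw [hE γ j, map_sub, map_sum, hσ, hF]
        congr 1
        exact Finset.sum_congr rfl fun i _ => by rw [map_zsmul, hF]
      have e6 := hk' _ _ e5
      have e7 : ρ γ (x j + a • F j) - ∑ i, homMat g γ i j • (x i + a • F i) =
          ((ρ γ (x j) - ∑ i, homMat g γ i j • x i) - a • p γ j) +
            (a • p γ j - a • (∑ i, homMat g γ i j • F i - ρ γ (F j))) := by
        simp only [smul_sub, smul_add, Finset.smul_sum, map_add, map_smul,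
          Finset.sum_add_distrib, smul_comm a]
        abel
      rw [e7]
      exact Submodule.add_mem _ (hp γ j) e6
    have e8 : x j = (x j + a • F j) - a • F j := by abel
    rw [e8]
    exact Submodule.sub_mem _ (blk_mem hblk j) (h1 _)
  have h4 : ∀ y, InvMod ρ (N ⊔ LinearMap.range (LinearMap.lsmul R M a)) y → y ∈ spn ρ N := by
    intro y hy
    choose p hp using fun γ => hdec _ (hy γ)
    obtain ⟨E, hE⟩ := std_K hg h2 hS (fun γ => q (p γ)) (by
      intro γ η
      have e1 : ρ (γ * η) y - y = (ρ γ y - y) + ρ γ (ρ η y - y) := by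
        rw [map_mul, Module.End.mul_apply, map_sub]
        abel
      have e3 : q (p (γ * η)) = q (p γ + ρ γ (p η)) := by
        rw [← sub_eq_zero, ← map_sub, hk]
        have e4 : a • (p (γ * η) - (p γ + ρ γ (p η))) =
            -((ρ (γ * η) y - y) - a • p (γ * η)) +
            (((ρ γ y - y) - a • p γ) + ρ γ ((ρ η y - y) - a • p η)) := by
          rw [e1]
          simp only [smul_sub, smul_add, map_sub, map_smul]
          abel
        rw [e4]
        exact Submodule.add_mem _ (Submodule.neg_mem _ (hp _))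
          (Submodule.add_mem _ (hp _) (hN _ _ (hp _)))
      rw [e3, map_add, hσ])
    obtain ⟨F, hF⟩ := hq E
    have hinv : InvMod ρ N (y + a • F) := by
      intro γ
      have e5 : q (p γ) = q (F - ρ γ F) := by rw [hE γ, map_sub, hσ, hF]
      have e6 := hk' _ _ e5
      have e7 : ρ γ (y + a • F) - (y + a • F) =
          ((ρ γ y - y) - a • p γ) + (a • p γ - a • (F - ρ γ F)) := by
        simp only [smul_sub, map_add, map_smul]
        abel
      rw [e7]
      exact Submodule.add_mem _ (hp γ) e6
    have e8 : y = (y + a • F) - a • F := by abel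
    rw [e8]
    exact Submodule.sub_mem _ (inv_mem' hinv) (h1 _)
  rw [eq_top_iff, ← htop]
  refine sup_le (Submodule.span_le.2 ?_) (sup_le le_spn ?_)
  · rintro z (⟨x, hx, j, rfl⟩ | hz)
    · exact h3 x hx j
    · exact h4 z hz
  · rintro _ ⟨p, rfl⟩
    exact h1 p

end

end Pool.Agent.Q290.MR
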