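import Mathlib
import Pool.Agent.Q290.MR.Stp

set_option autoImplicit false

/-! Representations on modules over a commutative ring: congruences modulo powers of a maximal
ideal. -/

namespace Pool.Agent.Q290.MR

open Pool.Agent.H798R3.MG Pool.Agent.H29R2.MG Pool.Agent.TH35.MG Pool.Agent.Q290.MG Module

section
variable {R M : Type*} [CommRing R] [AddCommGroup M] [Module R M] {g : ℕ}

theorem step_max (hg : 10 ≤ g) (hu : IsUnit (2 * (g : R) - 2)) {d : ℕ} (s : Fin d → M)
    (hs : Submodule.span R (Set.range s) = ⊤) (hd : d < 2 * g * (g - 1))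
    (ρ : Gam g →* Module.End R M) (I : Ideal R) [hI : I.IsMaximal] (N : Submodule R M)
    (hN : ∀ γ, ∀ x ∈ N, ρ γ x ∈ N) (a : R) (ha : ∀ r ∈ I, ∀ x : M, (a * r) • x ∈ N)
    (htop : spn ρ (N ⊔ LinearMap.range (LinearMap.lsmul R M a)) = ⊤) : spn ρ N = ⊤ := by
  classical
  let W : Submodule R M := N.comap (LinearMap.lsmul R M a)
  have hW : ∀ x, x ∈ W ↔ a • x ∈ N := fun x => Iff.rfl
  have hWs : ∀ γ, W ≤ W.comap (ρ γ) := by
    intro γ x hx
    rw [Submodule.mem_comap, hW, ← map_smul]
    exact hN γ _ ((hW x).1 hx)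
  have hT : Module.IsTorsionBySet R (M ⧸ W) I := by
    rintro x ⟨r, hr⟩
    obtain ⟨y, rfl⟩ := W.mkQ_surjective x
    show r • W.mkQ y = 0
    rw [← map_smul, Submodule.mkQ_apply, Submodule.Quotient.mk_eq_zero, hW, smul_smul]
    exact ha r hr y
  let _ : Field (R ⧸ I) := Ideal.Quotient.field I
  let _ : Module (R ⧸ I) (M ⧸ W) := hT.module
  have hsm : ∀ (r : R) (x : M ⧸ W), (Ideal.Quotient.mk I r) • x = r • x :=
    fun r x => Module.IsTorsionBySet.mk_smul hT r x
  let σ : Gam g →* Module.End (R ⧸ I) (M ⧸ W) :=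
    { toFun := fun γ =>
        { toFun := W.mapQ W (ρ γ) (hWs γ)
          map_add' := map_add _
          map_smul' := by
            intro c x
            obtain ⟨r, rfl⟩ := Ideal.Quotient.mk_surjective c
            rw [hsm, map_smul, RingHom.id_apply, hsm] }
      map_one' := by
        apply LinearMap.ext
        intro x
        obtain ⟨y, rfl⟩ := W.mkQ_surjective x
        show W.mapQ W (ρ 1) (hWs 1) (W.mkQ y) = W.mkQ y
        rw [Submodule.mkQ_apply, Submodule.mapQ_apply, map_one, Module.End.one_apply]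
      map_mul' := by
        intro γ η
        apply LinearMap.ext
        intro x
        obtain ⟨y, rfl⟩ := W.mkQ_surjective x
        show W.mapQ W (ρ (γ * η)) (hWs _) (W.mkQ y) =
          W.mapQ W (ρ γ) (hWs _) (W.mapQ W (ρ η) (hWs _) (W.mkQ y))
        rw [Submodule.mkQ_apply, Submodule.mapQ_apply, Submodule.mapQ_apply, Submodule.mapQ_apply,
          map_mul, Module.End.mul_apply] }
  have hσ : ∀ γ x, W.mkQ (ρ γ x) = σ γ (W.mkQ x) := by
    intro γ x
    show _ = W.mapQ W (ρ γ) (hWs _) (W.mkQ x)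
    rw [Submodule.mkQ_apply, Submodule.mkQ_apply, Submodule.mapQ_apply]
  have hspan : Submodule.span (R ⧸ I) (Set.range fun i => W.mkQ (s i)) = ⊤ := by
    rw [eq_top_iff]
    intro x _
    obtain ⟨y, rfl⟩ := W.mkQ_surjective x
    have hy : y ∈ Submodule.span R (Set.range s) := by rw [hs]; trivial
    induction hy using Submodule.span_induction with
    | mem y hy =>
      obtain ⟨i, rfl⟩ := hy
      exact Submodule.subset_span ⟨i, rfl⟩
    | zero => rw [map_zero]; exact Submodule.zero_mem _
    | add y z _ _ hy hz => rw [map_add]; exact Submodule.add_mem _ (hy trivial) (hz trivial)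
    | smul r y _ hy =>
      rw [map_smul, ← hsm]
      exact Submodule.smul_mem _ _ (hy trivial)
  have hfin : FiniteDimensional (R ⧸ I) (M ⧸ W) := by
    refine Module.finite_def.2 ⟨(Set.finite_range fun i => W.mkQ (s i)).toFinset, ?_⟩
    rw [Set.Finite.coe_toFinset]
    exact hspan
  have hfr : finrank (R ⧸ I) (M ⧸ W) < 2 * g * (g - 1) := by
    refine lt_of_le_of_lt ?_ hd
    have h1 := finrank_range_le_card (R := R ⧸ I) (fun i => W.mkQ (s i))
    rw [Set.finrank, hspan, finrank_top, Fintype.card_fin] at h1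
    exact h1
  have h2 : 2 * (g : R ⧸ I) - 2 ≠ 0 := by
    have h3 := hu.map (Ideal.Quotient.mk I)
    have h4 : Ideal.Quotient.mk I (2 * (g : R) - 2) = 2 * (g : R ⧸ I) - 2 := by
      rw [map_sub, map_mul, map_natCast, map_ofNat]
    rw [h4] at h3
    exact h3.ne_zero
  have hS : StdSum σ := stdSum_of hg hfr (Or.inl h2)
  refine step hg h2 hN a (Ideal.Quotient.mk I) Ideal.Quotient.mk_surjective
    (W.mkQ : M →+ (M ⧸ W)) W.mkQ_surjective (fun r x => ?_) σ hσ (fun x => ?_) hS htop
  · show W.mkQ (r • x) = (Ideal.Quotient.mk I r) • W.mkQ x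
    rw [map_smul, hsm]
  · show W.mkQ x = 0 ↔ _
    rw [Submodule.mkQ_apply, Submodule.Quotient.mk_eq_zero, hW]

theorem spn_top (ρ : Gam g →* Module.End R M) : spn ρ ⊤ = ⊤ :=
  eq_top_iff.2 le_spn

theorem all_spn [IsNoetherian R M] (hg : 10 ≤ g) (hu : IsUnit (2 * (g : R) - 2)) {d : ℕ}
    (s : Fin d → M) (hs : Submodule.span R (Set.range s) = ⊤) (hd : d < 2 * g * (g - 1))
    (ρ : Gam g →* Module.End R M) (I : Ideal R) [hI : I.IsMaximal] (k : ℕ) :
    ∀ N : Submodule R M, (∀ γ, ∀ x ∈ N, ρ γ x ∈ N) → I ^ k • (⊤ : Submodule R M) ≤ N →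
      spn ρ N = ⊤ := by
  intro N
  induction N using WellFoundedGT.induction with
  | ind N ih =>
    intro hN hk
    by_cases htop : N = ⊤
    · rw [htop]; exact spn_top ρ
    -- the last power not contained in `N`
    obtain ⟨j, hj1, hj2⟩ : ∃ j, ¬ I ^ j • (⊤ : Submodule R M) ≤ N ∧
        I ^ (j + 1) • (⊤ : Submodule R M) ≤ N := by
      by_contra hcon
      push Not at hcon
      have : ∀ j, ¬ I ^ j • (⊤ : Submodule R M) ≤ N := by
        intro j
        induction j with
        | zero =>
          rw [pow_zero, Ideal.one_eq_top, Submodule.top_smul, top_le_iff]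
          exact htop
        | succ j ih => exact hcon j ih
      exact this k hk
    obtain ⟨a, ha, x, hx⟩ : ∃ a ∈ I ^ j, ∃ x : M, a • x ∉ N := by
      by_contra hcon
      push Not at hcon
      exact hj1 (Submodule.smul_le.2 fun a ha x _ => hcon a ha x)
    apply step_max hg hu s hs hd ρ I N hN a
    · intro r hr y
      apply hj2
      apply Submodule.smul_mem_smul _ Submodule.mem_top
      rw [pow_succ]
      exact Ideal.mul_mem_mul ha hr
    · apply ih
      · refine lt_of_le_of_ne le_sup_left ?_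
        intro h
        apply hx
        rw [h]
        exact Submodule.mem_sup_right ⟨x, rfl⟩
      · intro γ y hy
        obtain ⟨n, hn, z, ⟨p, rfl⟩, rfl⟩ := Submodule.mem_sup.1 hy
        rw [map_add, LinearMap.lsmul_apply, map_smul]
        exact Submodule.add_mem _ (Submodule.mem_sup_left (hN γ n hn))
          (Submodule.mem_sup_right ⟨ρ γ p, rfl⟩)
      · exact hk.trans le_sup_left

end

end Pool.Agent.Q290.MR
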