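import Mathlib
import Pool.Agent.Q290.MR.Rng

set_option autoImplicit false

/-! Representations on finitely generated modules over a Noetherian ring. -/

namespace Pool.Agent.Q290.MR

open Pool.Agent.H798R3.MG Pool.Agent.H29R2.MG Pool.Agent.TH35.MG Pool.Agent.Q290.MG Module

section
variable {R M : Type*} [CommRing R] [AddCommGroup M] [Module R M] {g : ℕ}

/-- the generators -/
noncomputable def gg (g : ℕ) (t : Fin 3 × Fin g) : Gam g :=
  if t.1 = 0 then gA g t.2 else if t.1 = 1 then gB g t.2 else gT g t.2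

theorem closure_gg (h2 : 2 ≤ g) : Subgroup.closure (Set.range (gg g)) = ⊤ := by
  have h := gen_gam h2
  unfold Gen at h
  rw [eq_top_iff, ← h, Subgroup.closure_le]
  rintro x (⟨i, hi, rfl | rfl⟩ | ⟨i, hi, rfl⟩)
  · exact Subgroup.subset_closure ⟨(0, ⟨i, hi⟩), by simp [gg]⟩
  · exact Subgroup.subset_closure ⟨(1, ⟨i, hi⟩), by simp [gg]⟩
  · exact Subgroup.subset_closure ⟨(2, ⟨i, by omega⟩), by simp [gg]⟩

/-- the group element acts on the family as on the homology -/
def EqR (ρ : Gam g →* Module.End R M) (x : Fin g ⊕ Fin g → M) (γ : Gam g) : Prop :=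
  ∀ j, ρ γ (x j) = ∑ i, homMat g γ i j • x i

variable {ρ : Gam g →* Module.End R M} {x : Fin g ⊕ Fin g → M}

theorem EqR.one : EqR ρ x 1 := by
  intro j
  rw [map_one, Module.End.one_apply, Subgroup.coe_one, map_one,
    Finset.sum_eq_single j]
  · rw [Matrix.one_apply_eq, one_smul]
  · intro i _ hij
    rw [Matrix.one_apply_ne hij, zero_smul]
  · intro h; exact absurd (Finset.mem_univ j) h

theorem EqR.mul {γ γ' : Gam g} (h : EqR ρ x γ) (h' : EqR ρ x γ') : EqR ρ x (γ * γ') := by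
  intro j
  rw [map_mul, Module.End.mul_apply, h' j, map_sum, Subgroup.coe_mul, map_mul]
  simp only [map_zsmul, h _, Matrix.mul_apply, Finset.sum_smul, Finset.smul_sum, smul_smul]
  rw [Finset.sum_comm]
  apply Finset.sum_congr rfl
  intro i _
  apply Finset.sum_congr rfl
  intro k _
  rw [mul_comm]

theorem EqR.inv {γ : Gam g} (h : EqR ρ x γ) : EqR ρ x γ⁻¹ := by
  have h1 : homMat g γ * homMat g (γ⁻¹ : Gam g) = 1 := by
    rw [← map_mul, ← Subgroup.coe_mul, mul_inv_cancel, Subgroup.coe_one, map_one]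
  have key : ∀ j, ρ γ (∑ i, homMat g (γ⁻¹ : Gam g) i j • x i) = x j := by
    intro j
    rw [map_sum]
    simp only [map_zsmul, h _, Finset.smul_sum, smul_smul]
    rw [Finset.sum_comm]
    have h2 : ∀ i, ∑ k, (homMat g (γ⁻¹ : Gam g) k j * homMat g γ i k) • x i =
        (1 : Matrix (Fin g ⊕ Fin g) (Fin g ⊕ Fin g) ℤ) i j • x i := by
      intro i
      rw [← h1, Matrix.mul_apply, Finset.sum_smul]
      apply Finset.sum_congr rfl
      intro k _
      rw [mul_comm]
    simp only [h2]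
    rw [Finset.sum_eq_single j]
    · rw [Matrix.one_apply_eq, one_smul]
    · intro i _ hij
      rw [Matrix.one_apply_ne hij, zero_smul]
    · intro h; exact absurd (Finset.mem_univ j) h
  intro j
  conv_lhs => rw [← key j]
  rw [← Module.End.mul_apply, ← map_mul, inv_mul_cancel, map_one, Module.End.one_apply]

theorem eqR_all (h2 : 2 ≤ g) (h : ∀ t, EqR ρ x (gg g t)) (γ : Gam g) : EqR ρ x γ := by
  have hγ : γ ∈ Subgroup.closure (Set.range (gg g)) := by rw [closure_gg h2]; trivial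
  induction hγ using Subgroup.closure_induction with
  | mem γ hγ => obtain ⟨t, rfl⟩ := hγ; exact h t
  | one => exact EqR.one
  | mul _ _ _ _ h1 h3 => exact h1.mul h3
  | inv _ _ h1 => exact h1.inv

theorem inv_all (h2 : 2 ≤ g) {y : M} (h : ∀ t, ρ (gg g t) y = y) (γ : Gam g) : ρ γ y = y := by
  have hγ : γ ∈ Subgroup.closure (Set.range (gg g)) := by rw [closure_gg h2]; trivial
  induction hγ using Subgroup.closure_induction with
  | mem γ hγ => obtain ⟨t, rfl⟩ := hγ; exact h t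
  | one => rw [map_one, Module.End.one_apply]
  | mul a b _ _ h1 h3 => rw [map_mul, Module.End.mul_apply, h3, h1]
  | inv a _ h1 =>
    conv_lhs => rw [← h1]
    rw [← Module.End.mul_apply, ← map_mul, inv_mul_cancel, map_one, Module.End.one_apply]

theorem blk_bot : BlkMod ρ ⊥ x ↔ ∀ γ, EqR ρ x γ := by
  unfold BlkMod EqR
  simp only [Submodule.mem_bot, sub_eq_zero]

theorem inv_bot {y : M} : InvMod ρ ⊥ y ↔ ∀ γ, ρ γ y = y := by
  unfold InvMod
  simp only [Submodule.mem_bot, sub_eq_zero]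

end

section
variable {R A B : Type*} [CommRing R] [AddCommGroup A] [Module R A] [AddCommGroup B] [Module R B]

theorem artin_rees [IsNoetherianRing R] [Module.Finite R B] (L : A →ₗ[R] B) (I : Ideal R) :
    ∃ n₀ : ℕ, ∀ n, n₀ ≤ n → ∀ x : A, L x ∈ I ^ n • (⊤ : Submodule R B) →
      ∃ x' ∈ I • (⊤ : Submodule R A), L x' = L x := by
  obtain ⟨k, hk⟩ := I.exists_pow_inf_eq_pow_smul (LinearMap.range L)
  refine ⟨k + 1, fun n hn x hx => ?_⟩
  have h1 : L x ∈ I ^ n • (⊤ : Submodule R B) ⊓ LinearMap.range L := ⟨hx, ⟨x, rfl⟩⟩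
  rw [hk n (by omega)] at h1
  have h2 : I ^ (n - k) • (I ^ k • ⊤ ⊓ LinearMap.range L) ≤ I • LinearMap.range L :=
    Submodule.smul_mono (Ideal.pow_le_self (by omega)) inf_le_right
  have h3 := h2 h1
  rw [LinearMap.range_eq_map, ← Submodule.map_smul''] at h3
  obtain ⟨x', h4, h5⟩ := h3
  exact ⟨x', h4, h5⟩

theorem pi_mem {ι : Type*} [Finite ι] (J : Ideal R) {f : ι → B}
    (h : ∀ i, f i ∈ J • (⊤ : Submodule R B)) : f ∈ J • (⊤ : Submodule R (ι → B)) := by
  classical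
  have := Fintype.ofFinite ι
  have e : f = ∑ i, LinearMap.single R (fun _ : ι => B) i (f i) := by
    funext j
    simp
  rw [e]
  exact Submodule.sum_mem _ fun i _ => Submodule.smul_top_le_comap_smul_top J _ (h i)

end

section
variable {R M : Type*} [CommRing R] [AddCommGroup M] [Module R M] {g : ℕ}

/-- the defects of a family at the generators -/
noncomputable def LL (ρ : Gam g →* Module.End R M) :
    (Fin g ⊕ Fin g → M) →ₗ[R] ((Fin 3 × Fin g) × (Fin g ⊕ Fin g) → M) :=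
  LinearMap.pi fun q => (ρ (gg g q.1)) ∘ₗ LinearMap.proj q.2 -
      ∑ i, homMat g (gg g q.1) i q.2 • LinearMap.proj i

theorem LL_apply (ρ : Gam g →* Module.End R M) (x : Fin g ⊕ Fin g → M)
    (q : (Fin 3 × Fin g) × (Fin g ⊕ Fin g)) :
    LL ρ x q = ρ (gg g q.1) (x q.2) - ∑ i, homMat g (gg g q.1) i q.2 • x i := by
  unfold LL
  rw [LinearMap.pi_apply, LinearMap.sub_apply, LinearMap.sum_apply]
  rfl

/-- the defects of an element at the generators -/
noncomputable def LI (ρ : Gam g →* Module.End R M) : M →ₗ[R] (Fin 3 × Fin g → M) :=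
  LinearMap.pi fun t => ρ (gg g t) - LinearMap.id

theorem LI_apply (ρ : Gam g →* Module.End R M) (y : M) (t : Fin 3 × Fin g) :
    LI ρ y t = ρ (gg g t) y - y := rfl

theorem lift_blk (h2 : 2 ≤ g) [IsNoetherianRing R] [Module.Finite R M]
    (ρ : Gam g →* Module.End R M) (I : Ideal R) : ∃ n₀ : ℕ, ∀ n, n₀ ≤ n →
      ∀ x, BlkMod ρ (I ^ n • ⊤) x → ∀ j, x j ∈ spn ρ ⊥ ⊔ I • ⊤ := by
  obtain ⟨n₁, h₁⟩ := artin_rees (LL ρ) I
  refine ⟨n₁, fun n hn x hx j => ?_⟩
  obtain ⟨x', h3, h4⟩ := h₁ n hn x (pi_mem _ fun q => by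
    rw [LL_apply]; exact hx (gg g q.1) q.2)
  have h0 : LL ρ (x - x') = 0 := by rw [map_sub, h4, sub_self]
  have h5 : BlkMod ρ ⊥ (x - x') := by
    rw [blk_bot]
    refine eqR_all h2 fun t j => ?_
    have h6 := congrFun h0 (t, j)
    rw [LL_apply] at h6
    exact sub_eq_zero.1 h6
  have h7 : x j = (x - x') j + x' j := by rw [Pi.sub_apply, sub_add_cancel]
  have h8 : x' j ∈ I • (⊤ : Submodule R M) :=
    Submodule.smul_top_le_comap_smul_top I (LinearMap.proj j) h3
  rw [h7]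
  exact Submodule.add_mem _ (Submodule.mem_sup_left (blk_mem h5 j)) (Submodule.mem_sup_right h8)

theorem lift_inv (h2 : 2 ≤ g) [IsNoetherianRing R] [Module.Finite R M]
    (ρ : Gam g →* Module.End R M) (I : Ideal R) : ∃ n₀ : ℕ, ∀ n, n₀ ≤ n →
      ∀ y, InvMod ρ (I ^ n • ⊤) y → y ∈ spn ρ ⊥ ⊔ I • ⊤ := by
  obtain ⟨n₁, h₁⟩ := artin_rees (LI ρ) I
  refine ⟨n₁, fun n hn z hz => ?_⟩
  obtain ⟨y', h3, h4⟩ := h₁ n hn z (pi_mem _ fun t => by
    rw [LI_apply]; exact hz (gg g t))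
  have h0 : LI ρ (z - y') = 0 := by rw [map_sub, h4, sub_self]
  have h5 : InvMod ρ ⊥ (z - y') := by
    rw [inv_bot]
    refine inv_all h2 fun t => ?_
    have h6 := congrFun h0 t
    rw [LI_apply] at h6
    exact sub_eq_zero.1 h6
  have h7 : z = (z - y') + y' := by rw [sub_add_cancel]
  rw [h7]
  exact Submodule.add_mem _ (Submodule.mem_sup_left (inv_mem' h5)) (Submodule.mem_sup_right h3)

theorem sup_max [IsNoetherianRing R] (hg : 10 ≤ g) (hu : IsUnit (2 * (g : R) - 2)) {d : ℕ}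
    (s : Fin d → M) (hs : Submodule.span R (Set.range s) = ⊤) (hd : d < 2 * g * (g - 1))
    (ρ : Gam g →* Module.End R M) (I : Ideal R) [I.IsMaximal] : spn ρ ⊥ ⊔ I • ⊤ = ⊤ := by
  have hfin : Module.Finite R M := by
    refine Module.finite_def.2 ⟨(Set.finite_range s).toFinset, ?_⟩
    rw [Set.Finite.coe_toFinset]
    exact hs
  obtain ⟨n₁, h₁⟩ := lift_blk (by omega : 2 ≤ g) ρ I
  obtain ⟨n₂, h₂⟩ := lift_inv (by omega : 2 ≤ g) ρ I
  obtain ⟨n, hn1, hn2, hn3⟩ : ∃ n, n₁ ≤ n ∧ n₂ ≤ n ∧ 1 ≤ n :=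
    ⟨max 1 (max n₁ n₂), (le_max_left _ _).trans (le_max_right _ _),
      (le_max_right _ _).trans (le_max_right _ _), le_max_left _ _⟩
  have hspn : spn ρ (I ^ n • ⊤) = ⊤ := by
    refine all_spn hg hu s hs hd ρ I n _ (fun γ x hx => ?_) le_rfl
    exact Submodule.smul_top_le_comap_smul_top (I ^ n) (ρ γ) hx
  have hle : spn ρ (I ^ n • ⊤) ≤ spn ρ ⊥ ⊔ I • ⊤ := by
    refine sup_le (Submodule.span_le.2 ?_) ?_
    · rintro z (⟨x, hx, j, rfl⟩ | hz)
      · exact h₁ n hn1 x hx j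
      · exact h₂ n hn2 z hz
    · exact le_sup_of_le_right (Submodule.smul_mono_left (Ideal.pow_le_self (by omega)))
  rw [hspn] at hle
  exact top_le_iff.1 hle

theorem nak [IsNoetherianRing R] [Module.Finite R M] (S : Submodule R M)
    (hmax : ∀ I : Ideal R, I.IsMaximal → S ⊔ I • ⊤ = ⊤) : S = ⊤ := by
  by_contra hne
  obtain ⟨x, hx⟩ : ∃ x, x ∉ S := by
    by_contra hcon
    push Not at hcon
    exact hne (eq_top_iff.2 fun x _ => hcon x)
  let J : Ideal R := LinearMap.ker (LinearMap.toSpanSingleton R (M ⧸ S) (S.mkQ x))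
  have hJ : ∀ r, r ∈ J ↔ r • x ∈ S := by
    intro r
    show r • S.mkQ x = 0 ↔ _
    rw [← map_smul, Submodule.mkQ_apply, Submodule.Quotient.mk_eq_zero]
  have hJ1 : J ≠ ⊤ := by
    intro h
    have h1 : (1 : R) ∈ J := by rw [h]; trivial
    rw [hJ, one_smul] at h1
    exact hx h1
  obtain ⟨I, hI, hJI⟩ := Ideal.exists_le_maximal J hJ1
  have h3 : (⊤ : Submodule R (M ⧸ S)) = I • ⊤ := by
    apply le_antisymm _ le_top
    intro z _
    obtain ⟨y, rfl⟩ := S.mkQ_surjective z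
    have hy : y ∈ S ⊔ I • (⊤ : Submodule R M) := by rw [hmax I hI]; trivial
    obtain ⟨u, hu', v, hv, rfl⟩ := Submodule.mem_sup.1 hy
    rw [map_add]
    have h4 : S.mkQ u = 0 := by
      rw [Submodule.mkQ_apply, Submodule.Quotient.mk_eq_zero]; exact hu'
    rw [h4, zero_add]
    exact Submodule.smul_top_le_comap_smul_top I S.mkQ hv
  have h4 : ∀ i : ℕ, I ^ i • (⊤ : Submodule R (M ⧸ S)) = ⊤ := by
    intro i
    induction i with
    | zero => rw [pow_zero, Ideal.one_eq_top, Submodule.top_smul]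
    | succ i ih => rw [pow_succ, Submodule.mul_smul, ← h3, ih]
  have h5 : S.mkQ x ∈ (⨅ i : ℕ, I ^ i • ⊤ : Submodule R (M ⧸ S)) := by
    rw [Submodule.mem_iInf]
    intro i
    rw [h4]
    trivial
  obtain ⟨r, hr⟩ := (I.mem_iInf_smul_pow_eq_bot_iff (S.mkQ x)).1 h5
  have h6 : (1 - (r : R)) ∈ J := by
    show (1 - (r : R)) • S.mkQ x = 0
    rw [sub_smul, one_smul, hr, sub_self]
  have h7 : (1 : R) ∈ I := by
    have := I.add_mem (hJI h6) r.2
    simpa using this
  exact hI.ne_top ((Ideal.eq_top_iff_one I).2 h7)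

theorem noeth [IsNoetherianRing R] (hg : 10 ≤ g) (hu : IsUnit (2 * (g : R) - 2)) {d : ℕ}
    (s : Fin d → M) (hs : Submodule.span R (Set.range s) = ⊤) (hd : d < 2 * g * (g - 1))
    (ρ : Gam g →* Module.End R M) : spn ρ ⊥ = ⊤ := by
  have hfin : Module.Finite R M := by
    refine Module.finite_def.2 ⟨(Set.finite_range s).toFinset, ?_⟩
    rw [Set.Finite.coe_toFinset]
    exact hs
  exact nak _ fun I hI => sup_max hg hu s hs hd ρ I

end

end Pool.Agent.Q290.MR
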