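import Mathlib
import Pool.Agent.Q290.MR.Noe

set_option autoImplicit false

/-! Representations on finitely generated modules over a commutative ring. -/

namespace Pool.Agent.Q290.MR

open Pool.Agent.H798R3.MG Pool.Agent.H29R2.MG Pool.Agent.TH35.MG Pool.Agent.Q290.MG Module

section
variable {R M : Type*} [CommRing R] [AddCommGroup M] [Module R M] {g : ℕ}

theorem general (hg : 10 ≤ g) (hu : IsUnit (2 * (g : R) - 2)) {d : ℕ}
    (s : Fin d → M) (hs : Submodule.span R (Set.range s) = ⊤) (hd : d < 2 * g * (g - 1))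
    (ρ : Gam g →* Module.End R M) : spn ρ ⊥ = ⊤ := by
  classical
  have h2 : 2 ≤ g := by omega
  have hcoef : ∀ x : M, ∃ c : Fin d → R, ∑ i, c i • s i = x := by
    intro x
    have : x ∈ Submodule.span R (Set.range s) := by rw [hs]; trivial
    exact (Submodule.mem_span_range_iff_exists_fun R).1 this
  choose c hc using hcoef
  obtain ⟨u, hu'⟩ := hu.exists_right_inv
  let T : Set R := (Set.range fun q : (Fin 3 × Fin g) × Fin d × Fin d =>
      c (ρ (gg g q.1) (s q.2.1)) q.2.2) ∪
    (Set.range fun q : (Fin 3 × Fin g) × Fin d × Fin d =>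
      c (ρ (gg g q.1)⁻¹ (s q.2.1)) q.2.2) ∪ {u}
  have hTf : T.Finite :=
    ((Set.finite_range _).union (Set.finite_range _)).union (Set.finite_singleton _)
  let R₀ : Subalgebra ℤ R := Algebra.adjoin ℤ T
  have hfg : R₀.FG := Subalgebra.fg_def.2 ⟨T, hTf, rfl⟩
  have hno : IsNoetherianRing R₀ := isNoetherianRing_of_fg hfg
  let M₀ : Submodule R₀ M := Submodule.span R₀ (Set.range s)
  have hsM : ∀ i, s i ∈ M₀ := fun i => Submodule.subset_span ⟨i, rfl⟩
  have hst : ∀ f : M →ₗ[R] M, (∀ i j, c (f (s i)) j ∈ R₀) → ∀ x ∈ M₀, f x ∈ M₀ := by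
    intro f hf x hx
    induction hx using Submodule.span_induction with
    | mem x hx =>
      obtain ⟨i, rfl⟩ := hx
      rw [← hc (f (s i))]
      refine Submodule.sum_mem _ fun j _ => ?_
      exact M₀.smul_mem (⟨_, hf i j⟩ : R₀) (hsM j)
    | zero => rw [map_zero]; exact Submodule.zero_mem _
    | add x y _ _ hx hy => rw [map_add]; exact Submodule.add_mem _ hx hy
    | smul r x _ hx =>
      have e : f (r • x) = r • f x := map_smul f (r : R) x
      rw [e]
      exact Submodule.smul_mem _ _ hx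
  have hall : ∀ γ : Gam g, (∀ x ∈ M₀, ρ γ x ∈ M₀) ∧ ∀ x ∈ M₀, ρ γ⁻¹ x ∈ M₀ := by
    intro γ
    have hγ : γ ∈ Subgroup.closure (Set.range (gg g)) := by rw [closure_gg h2]; trivial
    induction hγ using Subgroup.closure_induction with
    | mem γ hγ =>
      obtain ⟨t, rfl⟩ := hγ
      refine ⟨hst _ fun i j => ?_, hst _ fun i j => ?_⟩
      · exact Algebra.subset_adjoin (Or.inl (Or.inl ⟨(t, i, j), rfl⟩))
      · exact Algebra.subset_adjoin (Or.inl (Or.inr ⟨(t, i, j), rfl⟩))
    | one =>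
      simp only [inv_one, map_one, Module.End.one_apply]
      exact ⟨fun x hx => hx, fun x hx => hx⟩
    | mul a b _ _ ha hb =>
      refine ⟨fun x hx => ?_, fun x hx => ?_⟩
      · rw [map_mul, Module.End.mul_apply]
        exact ha.1 _ (hb.1 _ hx)
      · rw [mul_inv_rev, map_mul, Module.End.mul_apply]
        exact hb.2 _ (ha.2 _ hx)
    | inv a _ ha =>
      refine ⟨ha.2, ?_⟩
      rw [inv_inv]
      exact ha.1
  let ρ₀ : Gam g →* Module.End R₀ M₀ :=
    { toFun := fun γ => ((ρ γ).restrictScalars R₀).restrict (hall γ).1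
      map_one' := by
        apply LinearMap.ext
        intro x
        apply Subtype.ext
        show ρ 1 (x : M) = x
        rw [map_one, Module.End.one_apply]
      map_mul' := by
        intro γ η
        apply LinearMap.ext
        intro x
        apply Subtype.ext
        show ρ (γ * η) (x : M) = ρ γ (ρ η x)
        rw [map_mul, Module.End.mul_apply] }
  have hρ₀ : ∀ γ (x : M₀), ((ρ₀ γ x : M₀) : M) = ρ γ x := fun γ x => rfl
  have huR : u ∈ R₀ := Algebra.subset_adjoin (Or.inr rfl)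
  have hu₀ : IsUnit (2 * (g : R₀) - 2) := by
    refine IsUnit.of_mul_eq_one (⟨u, huR⟩ : R₀) ?_
    apply Subtype.ext
    push_cast
    exact hu'
  have hs₀ : Submodule.span R₀ (Set.range fun i => (⟨s i, hsM i⟩ : M₀)) = ⊤ := by
    apply Submodule.map_injective_of_injective M₀.injective_subtype
    rw [Submodule.map_span, Submodule.map_subtype_top, ← Set.range_comp]
    rfl
  have hmain := noeth hg hu₀ (fun i => (⟨s i, hsM i⟩ : M₀)) hs₀ hd ρ₀
  let S : Submodule R₀ M₀ := ((spn ρ ⊥).restrictScalars R₀).comap M₀.subtype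
  have hS : ⊤ ≤ S := by
    rw [← hmain]
    refine sup_le (Submodule.span_le.2 ?_) bot_le
    rintro z (⟨x, hx, j, rfl⟩ | hz)
    · show ((x j : M₀) : M) ∈ spn ρ ⊥
      refine blk_mem (x := fun j => ((x j : M₀) : M)) ?_ j
      rw [blk_bot] at hx ⊢
      intro γ j
      have h := congrArg M₀.subtype (hx γ j)
      rw [map_sum] at h
      simp only [map_zsmul] at h
      exact h
    · show ((z : M₀) : M) ∈ spn ρ ⊥
      apply inv_mem'
      have hz' : InvMod ρ₀ ⊥ z := hz
      rw [inv_bot] at hz' ⊢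
      intro γ
      exact congrArg M₀.subtype (hz' γ)
  rw [eq_top_iff, ← hs]
  refine Submodule.span_le.2 ?_
  rintro _ ⟨i, rfl⟩
  exact hS (show (⟨s i, hsM i⟩ : M₀) ∈ ⊤ by trivial)

/-- the families on which the group acts as on the homology -/
def famX (ρ : Gam g →* Module.End R M) : Submodule R (Fin g ⊕ Fin g → M) where
  carrier := {x | ∀ γ, EqR ρ x γ}
  zero_mem' := by
    intro γ j
    simp
  add_mem' := by
    intro x y hx hy γ j
    simp only [Pi.add_apply, map_add, smul_add, Finset.sum_add_distrib]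
    rw [hx γ j, hy γ j]
  smul_mem' := by
    intro r x hx γ j
    simp only [Pi.smul_apply, map_smul]
    rw [hx γ j, Finset.smul_sum]
    exact Finset.sum_congr rfl fun i _ => smul_comm _ _ _

/-- the invariants -/
def invY (ρ : Gam g →* Module.End R M) : Submodule R M where
  carrier := {y | ∀ γ, ρ γ y = y}
  zero_mem' := by intro γ; rw [map_zero]
  add_mem' := by intro x y hx hy γ; rw [map_add, hx γ, hy γ]
  smul_mem' := by intro r x hx γ; rw [map_smul, hx γ]

/-- the sum map -/
def sumMap (ρ : Gam g →* Module.End R M) :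
    ((Fin g ⊕ Fin g → famX ρ) × invY ρ) →ₗ[R] M where
  toFun p := ∑ j, (p.1 j : Fin g ⊕ Fin g → M) j + (p.2 : M)
  map_add' := by
    intro p q
    simp only [Prod.fst_add, Prod.snd_add, Pi.add_apply, Submodule.coe_add,
      Finset.sum_add_distrib]
    abel
  map_smul' := by
    intro r p
    simp only [Prod.smul_fst, Prod.smul_snd, Pi.smul_apply, Submodule.coe_smul,
      RingHom.id_apply, smul_add, Finset.smul_sum]

theorem sumMap_surj (ρ : Gam g →* Module.End R M) (h : spn ρ ⊥ = ⊤) :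
    Function.Surjective (sumMap ρ) := by
  classical
  rw [← LinearMap.range_eq_top, eq_top_iff, ← h]
  refine sup_le (Submodule.span_le.2 ?_) bot_le
  rintro z (⟨x, hx, j, rfl⟩ | hz)
  · refine ⟨(Pi.single j ⟨x, blk_bot.1 hx⟩, 0), ?_⟩
    show ∑ i, ((Pi.single j (⟨x, blk_bot.1 hx⟩ : famX ρ) : Fin g ⊕ Fin g → famX ρ) i :
      Fin g ⊕ Fin g → M) i + ((0 : invY ρ) : M) = x j
    rw [Finset.sum_eq_single j]
    · rw [Pi.single_eq_same]; simp
    · intro i _ hi
      rw [Pi.single_eq_of_ne hi]; rfl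
    · intro hj; exact absurd (Finset.mem_univ _) hj
  · refine ⟨(0, ⟨z, inv_bot.1 hz⟩), ?_⟩
    show ∑ i, ((0 : Fin g ⊕ Fin g → famX ρ) i : Fin g ⊕ Fin g → M) i + z = z
    simp

theorem sumMap_inj (h2 : 2 ≤ g) (ρ : Gam g →* Module.End R M) :
    Function.Injective (sumMap ρ) := by
  classical
  rw [injective_iff_map_eq_zero]
  rintro ⟨u, y⟩ h
  have h0 : ∑ j, (u j : Fin g ⊕ Fin g → M) j + (y : M) = 0 := h
  have hfz : ∀ (x : famX ρ) (j : Fin g ⊕ Fin g), (x : Fin g ⊕ Fin g → M) j = 0 → x = 0 := by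
    intro x j hj
    apply Subtype.ext
    funext i
    exact fam_zero h2 (fun γ => (ρ γ).toAddMonoidHom) (x := x) (fun γ j => x.2 γ j) hj i
  have hA : ∀ l : Fin g, u (Sum.inr l) = 0 := by
    intro l
    apply hfz _ (Sum.inl l)
    have h1 := congrArg (ρ (gA g l)) h0
    rw [map_add, map_sum, map_zero, y.2 (gA g l)] at h1
    have h3 : ∀ j, ρ (gA g l) ((u j : Fin g ⊕ Fin g → M) j) = (u j : Fin g ⊕ Fin g → M) j +
        if j = Sum.inr l then (u (Sum.inr l) : Fin g ⊕ Fin g → M) (Sum.inl l) else 0 := by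
      intro j
      rw [(u j).2 (gA g l) j]
      rcases j with j | j
      · rw [sumA_inl h2 l.2, if_neg (by simp), add_zero]
      · by_cases hj : (j : ℕ) = l
        · have hj' : j = l := Fin.ext hj
          subst hj'
          rw [if_pos rfl]
          exact sumA_inr h2 j.2 _
        · rw [sumA_ne h2 l.2 _ hj, if_neg (fun e => hj (by rw [Sum.inr.inj e])), add_zero]
    simp only [h3, Finset.sum_add_distrib, Finset.sum_ite_eq', Finset.mem_univ, if_true] at h1
    have h4 : (u (Sum.inr l) : Fin g ⊕ Fin g → M) (Sum.inl l) =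
        (∑ j, (u j : Fin g ⊕ Fin g → M) j + (u (Sum.inr l) : Fin g ⊕ Fin g → M) (Sum.inl l) +
          (y : M)) - (∑ j, (u j : Fin g ⊕ Fin g → M) j + (y : M)) := by abel
    rw [h4, h1, h0, sub_zero]
  have hB : ∀ l : Fin g, u (Sum.inl l) = 0 := by
    intro l
    apply hfz _ (Sum.inr l)
    have h1 := congrArg (ρ (gB g l)) h0
    rw [map_add, map_sum, map_zero, y.2 (gB g l)] at h1
    have h3 : ∀ j, ρ (gB g l) ((u j : Fin g ⊕ Fin g → M) j) = (u j : Fin g ⊕ Fin g → M) j -
        if j = Sum.inl l then (u (Sum.inl l) : Fin g ⊕ Fin g → M) (Sum.inr l) else 0 := by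
      intro j
      rw [(u j).2 (gB g l) j]
      rcases j with j | j
      · by_cases hj : (j : ℕ) = l
        · have hj' : j = l := Fin.ext hj
          subst hj'
          rw [if_pos rfl]
          exact sumB_inl h2 j.2 _
        · rw [sumB_ne h2 l.2 _ hj, if_neg (fun e => hj (by rw [Sum.inl.inj e])), sub_zero]
      · rw [sumB_inr h2 l.2, if_neg (by simp), sub_zero]
    simp only [h3, Finset.sum_sub_distrib, Finset.sum_ite_eq', Finset.mem_univ, if_true] at h1
    have h4 : (u (Sum.inl l) : Fin g ⊕ Fin g → M) (Sum.inr l) =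
        (∑ j, (u j : Fin g ⊕ Fin g → M) j + (y : M)) -
        (∑ j, (u j : Fin g ⊕ Fin g → M) j - (u (Sum.inl l) : Fin g ⊕ Fin g → M) (Sum.inr l) +
          (y : M)) := by abel
    rw [h4, h1, h0, sub_zero]
  have hu : u = 0 := by
    funext j
    rcases j with l | l
    · exact hB l
    · exact hA l
  subst hu
  have hy : (y : M) = 0 := by simpa using h0
  rw [Submodule.coe_eq_zero.1 hy]
  rfl

theorem sumMap_act (ρ : Gam g →* Module.End R M) (γ : Gam g)
    (u : Fin g ⊕ Fin g → famX ρ) (y : invY ρ) :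
    ρ γ (sumMap ρ (u, y)) = sumMap ρ (fun i => ∑ j, homMat g γ i j • u j, y) := by
  show ρ γ (∑ j, (u j : Fin g ⊕ Fin g → M) j + (y : M)) =
    ∑ i, ((∑ j, homMat g γ i j • u j : famX ρ) : Fin g ⊕ Fin g → M) i + (y : M)
  rw [map_add, map_sum, y.2 γ]
  congr 1
  have h1 : ∀ j, ρ γ ((u j : Fin g ⊕ Fin g → M) j) =
      ∑ i, homMat g γ i j • (u j : Fin g ⊕ Fin g → M) i := fun j => (u j).2 γ j
  simp only [h1]
  rw [Finset.sum_comm]
  apply Finset.sum_congr rfl
  intro i _
  rw [Submodule.coe_sum, Finset.sum_apply]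
  exact Finset.sum_congr rfl fun j _ => rfl

end

end Pool.Agent.Q290.MR
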