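import Mathlib
import Pool.Agent.Q290.MR.Gen
import Pool.Agent.Q290.MR.Def

set_option autoImplicit false

/-! Representations on finitely generated modules over a commutative ring: conclusions. -/

namespace Pool.Agent.Q290.MR

open Pool.Agent.H798R3.MG Pool.Agent.H29R2.MG Pool.Agent.TH35.MG Pool.Agent.Q290.MG Module

section
variable {R M : Type*} [CommRing R] [AddCommGroup M] [Module R M] {g : ℕ}

theorem homTriv_iff (ρ : Gam g →* Module.End R M) : HomTriv ρ ↔
    ∃ (X : Submodule R (Fin g ⊕ Fin g → M)) (Y : Submodule R M)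
    (e : ((Fin g ⊕ Fin g → X) × Y) ≃ₗ[R] M),
    ∀ (γ : Gam g) (u : Fin g ⊕ Fin g → X) (y : Y),
      ρ γ (e (u, y)) = e (fun i => ∑ j, homMat g γ i j • u j, y) := by
  constructor
  · rintro ⟨X, Y, e, hl, hb, h⟩
    refine ⟨X, Y, LinearEquiv.ofBijective hl.mk' hb, fun γ u y => ?_⟩
    obtain ⟨τ, hτ⟩ := QuotientGroup.mk_surjective (γ : Mod g)
    have h1 := h γ τ hτ u y
    have h2 : homAct τ u = fun i => ∑ j, homMat g (γ : Mod g) i j • u j := by rw [← hτ]; rfl
    rw [h2] at h1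
    exact h1
  · rintro ⟨X, Y, e, h⟩
    refine ⟨X, Y, e, e.toLinearMap.isLinear, e.bijective, fun γ τ hτ u y => ?_⟩
    rw [h γ u y, ← hτ]
    rfl

theorem homTriv_of (hg : 10 ≤ g) (hu : IsUnit (2 * (g : R) - 2)) {d : ℕ}
    (s : Fin d → M) (hs : Submodule.span R (Set.range s) = ⊤) (hd : d < 2 * g * (g - 1))
    (ρ : Gam g →* Module.End R M) : HomTriv ρ := by
  rw [homTriv_iff]
  refine ⟨famX ρ, invY ρ, LinearEquiv.ofBijective (sumMap ρ)
    ⟨sumMap_inj (by omega) ρ, sumMap_surj ρ (general hg hu s hs hd ρ)⟩, fun γ u y => ?_⟩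
  exact sumMap_act ρ γ u y

/-- the kernel -/
theorem ker_iff {ρ : Gam g →* Module.End R M} (h : HomTriv ρ) :
    ∃ n : ℕ, ∀ γ : Gam g, ρ γ = 1 ↔ ActsTrivMod g n γ := by
  classical
  rw [homTriv_iff] at h
  obtain ⟨X, Y, e, h⟩ := h
  let A : Ideal ℤ :=
    { carrier := {k | ∀ x : X, k • x = 0}
      zero_mem' := fun x => zero_smul _ _
      add_mem' := fun {a b} ha hb x => by rw [add_smul, ha x, hb x, add_zero]
      smul_mem' := fun c k hk x => by
        show (c * k) • x = 0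
        rw [mul_smul, hk x, smul_zero] }
  obtain ⟨a, ha⟩ := (inferInstance : A.IsPrincipal)
  have hA : ∀ k : ℤ, (∀ x : X, k • x = 0) ↔ ((a.natAbs : ℕ) : ℤ) ∣ k := by
    intro k
    have h1 : k ∈ A ↔ a ∣ k := by rw [ha]; exact Ideal.mem_span_singleton
    rw [Int.natAbs_dvd]
    exact h1
  refine ⟨a.natAbs, fun γ => ?_⟩
  rw [triv_iff]
  have e1 : ρ γ = 1 ↔ ∀ (u : Fin g ⊕ Fin g → X) (i : Fin g ⊕ Fin g),
      ∑ j, homMat g γ i j • u j = u i := by
    constructor
    · intro h1 u i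
      have h2 := h γ u 0
      rw [h1, Module.End.one_apply] at h2
      have h3 := congrArg Prod.fst (e.injective h2)
      exact (congrFun h3 i).symm
    · intro h1
      apply LinearMap.ext
      intro m
      obtain ⟨⟨u, y⟩, rfl⟩ := e.surjective m
      rw [h γ u y, Module.End.one_apply]
      congr 2
      funext i
      exact h1 u i
  rw [e1]
  constructor
  · intro h1 i j
    rw [← hA]
    intro x
    have h2 := h1 (Pi.single j x) i
    rw [Finset.sum_eq_single j, Pi.single_eq_same] at h2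
    · rw [sub_smul, h2, Matrix.one_apply, Pi.single_apply, sub_eq_zero]
      by_cases hij : i = j
      · rw [if_pos hij, if_pos hij, one_smul]
      · rw [if_neg hij, if_neg hij, zero_smul]
    · intro l _ hl
      rw [Pi.single_eq_of_ne hl, smul_zero]
    · intro hj; exact absurd (Finset.mem_univ _) hj
  · intro h1 u i
    have h2 : ∀ j, homMat g γ i j • u j =
        (1 : Matrix (Fin g ⊕ Fin g) (Fin g ⊕ Fin g) ℤ) i j • u j := by
      intro j
      have h3 := (hA _).2 (h1 i j) (u j)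
      rw [sub_smul, sub_eq_zero] at h3
      exact h3
    simp only [h2]
    rw [Finset.sum_eq_single i]
    · rw [Matrix.one_apply_eq, one_smul]
    · intro j _ hj
      rw [Matrix.one_apply_ne (Ne.symm hj), zero_smul]
    · intro hj; exact absurd (Finset.mem_univ _) hj

/-- the powers of a twist are not trivial on the homology -/
theorem triv_pow (h2 : 2 ≤ g) {n k : ℕ} (h : ActsTrivMod g n ((gA g 0 ^ k : Gam g) : Mod g)) :
    n ∣ k := by
  rw [triv_iff] at h
  have h4 := h (Sum.inl ⟨0, by omega⟩) (Sum.inr ⟨0, by omega⟩)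
  rw [Subgroup.coe_pow, homMat_pow h2, Matrix.one_apply_ne (by simp), sub_zero] at h4
  exact Int.natCast_dvd_natCast.1 h4

theorem triv_of_dvd {n k : ℕ} (h : n ∣ k) {T : Mod g} (hT : ActsTrivMod g k T) :
    ActsTrivMod g n T := by
  rw [triv_iff] at hT ⊢
  exact fun i j => (Int.natCast_dvd_natCast.2 h).trans (hT i j)

/-- the kernel when it has finite index -/
theorem ker_fin (h2 : 2 ≤ g) {ρ : Gam g →* Module.End R M} (h : HomTriv ρ)
    (hf : ρ.ker.FiniteIndex) :
    ∃ n : ℕ, 1 ≤ n ∧ ∀ γ : Gam g, ρ γ = 1 ↔ ActsTrivMod g n γ := by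
  obtain ⟨n, hn⟩ := ker_iff h
  refine ⟨n, Nat.one_le_iff_ne_zero.2 ?_, hn⟩
  rintro rfl
  obtain ⟨k, hk0, -, hk⟩ := Subgroup.exists_pow_mem_of_index_ne_zero hf.index_ne_zero (gA g 0)
  have h3 := triv_pow h2 ((hn _).1 hk)
  rw [zero_dvd_iff] at h3
  omega

theorem cong_ker {ρ : Gam g →* Module.End R M} {n : ℕ} (hn : 1 ≤ n)
    (h : ∀ γ : Gam g, ρ γ = 1 ↔ ActsTrivMod g n γ) (N : Subgroup (Gam g)) (hN : ρ.ker ≤ N) :
    IsCongruence N := by
  refine ⟨levP g n, levP_char n, levP_fi n (by omega), ?_⟩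
  intro γ hγ
  exact hN ((h γ).2 (triv_of_inner hγ))

/-- two twists -/
theorem rowA (h2 : 2 ≤ g) {k : ℕ} (hk : k < g) {X : Type*} [AddCommGroup X]
    (u : Fin g ⊕ Fin g → X) (i : Fin g ⊕ Fin g) :
    ∑ j, homMat g (gA g k : Mod g) i j • u j =
      u i + if i = Sum.inl ⟨k, hk⟩ then u (Sum.inr ⟨k, hk⟩) else 0 := by
  classical
  have e : ∀ j, homMat g (gA g k : Mod g) i j • u j =
      (if i = j then u j else 0) +
        (if j = Sum.inr ⟨k, hk⟩ then (if i = Sum.inl ⟨k, hk⟩ then u j else 0) else 0) := by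
    intro j
    rw [entA h2 hk]
    rcases j with l | l
    · show homologyClass (gen (Sum.inl l)) i • _ = _
      rw [hc_gen, Pi.single_apply, if_neg (by simp : ¬ (Sum.inl l : Fin g ⊕ Fin g) = Sum.inr ⟨k, hk⟩)]
      split_ifs <;> simp
    · unfold valA
      dsimp only
      by_cases hl : (l : ℕ) = k
      · subst hl
        rw [if_pos rfl, hc_mul, hc_gen, hc_gen, Pi.add_apply, Pi.single_apply, Pi.single_apply,
          if_pos (rfl : (Sum.inr l : Fin g ⊕ Fin g) = Sum.inr l), add_smul]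
        split_ifs <;> simp
      · rw [if_neg hl, hc_gen, Pi.single_apply,
          if_neg (show ¬ (Sum.inr l : Fin g ⊕ Fin g) = Sum.inr ⟨k, hk⟩ from
            fun e => hl (congrArg Fin.val (Sum.inr.inj e)))]
        split_ifs <;> simp
  simp only [e, Finset.sum_add_distrib, Finset.sum_ite_eq, Finset.sum_ite_eq', Finset.mem_univ,
    if_true]

theorem homTriv_two (h2 : 2 ≤ g) {ρ : Gam g →* Module.End R M} (h : HomTriv ρ) (m : M) :
    (ρ (gA g 0) - 1) ((ρ (gA g 1) - 1) m) = 0 := by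
  classical
  rw [homTriv_iff] at h
  obtain ⟨X, Y, e, h⟩ := h
  have key : ∀ k, ∀ hk : k < g, ∀ u y, (ρ (gA g k) - 1) (e (u, y)) =
      e (fun i => if i = Sum.inl ⟨k, hk⟩ then u (Sum.inr ⟨k, hk⟩) else 0, 0) := by
    intro k hk u y
    rw [LinearMap.sub_apply, Module.End.one_apply, h, ← map_sub]
    congr 1
    rw [Prod.mk_sub_mk, sub_self]
    congr 1
    funext i
    rw [Pi.sub_apply, rowA h2 hk, add_sub_cancel_left]
  obtain ⟨⟨u, y⟩, rfl⟩ := e.surjective m
  rw [key 1 (by omega), key 0 (by omega)]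
  rw [if_neg (by simp : ¬ (Sum.inr (⟨0, by omega⟩ : Fin g) : Fin g ⊕ Fin g) =
    Sum.inl ⟨1, by omega⟩)]
  have : (fun i : Fin g ⊕ Fin g => if i = Sum.inl (⟨0, by omega⟩ : Fin g) then (0 : X) else 0) =
      0 := by
    funext i
    simp
  rw [this]
  exact map_zero e

theorem exists_nz (K : Type*) [Field K] (h2 : 2 ≤ g) :
    ∃ ρ : Gam g →* Module.End K (Fin (g * (2 * g - 1)) → K),
      (ρ (gA g 0) - 1) * (ρ (gA g 1) - 1) ≠ 0 := by
  have hd : finrank K (⋀[K]^2 (Fin g ⊕ Fin g → K)) = finrank K (Fin (g * (2 * g - 1)) → K) := by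
    rw [lam_dim, Nat.choose_two_right, mul_assoc, Nat.mul_div_cancel_left _ (by norm_num),
      finrank_fintype_fun_eq_card, Fintype.card_fin]
  let e := LinearEquiv.ofFinrankEq _ _ hd
  let F : Module.End K (⋀[K]^2 (Fin g ⊕ Fin g → K)) →+*
      Module.End K (Fin (g * (2 * g - 1)) → K) :=
    { toFun := fun x => e.conj x
      map_one' := by rw [Module.End.one_eq_id, LinearEquiv.conj_id]; rfl
      map_mul' := fun x y => by rw [Module.End.mul_eq_comp, LinearEquiv.conj_comp]; rfl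
      map_zero' := map_zero _
      map_add' := fun x y => map_add _ _ _ }
  have hF : Function.Injective F := e.conj.injective
  refine ⟨(F : Module.End K (⋀[K]^2 (Fin g ⊕ Fin g → K)) →* _).comp
    ((lam g 2 K).comp (Gam g).subtype), ?_⟩
  intro h1
  have hs : Function.Injective (Fin.castLE h2 : Fin 2 → Fin g) := Fin.castLE_injective h2
  have h3 := lam_ne (K := K) hs (T := fun k => (gA g k : Mod g))
    (fun k => gA_tw h2 (by omega))
  apply h3
  have h4 := transp F hF h1
  rw [List.finRange_succ, List.finRange_succ, List.finRange_zero]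
  simpa using h4

/-- over every nontrivial ring there is a module with `g(2g-1)` generators which is not of the
form `(H_1 ⊗ X) ⊕ Y` -/
theorem nonstd_ring (R : Type*) [CommRing R] [Nontrivial R] (h2 : 2 ≤ g) :
    ∃ (I : Ideal R) (ρ : Gam g →* Module.End R (Fin (g * (2 * g - 1)) → R ⧸ I)), ¬ HomTriv ρ := by
  classical
  obtain ⟨I, hI⟩ := Ideal.exists_maximal R
  let _ : Field (R ⧸ I) := Ideal.Quotient.field I
  obtain ⟨ρ, hρ⟩ := exists_nz (g := g) (R ⧸ I) h2
  let ρ' : Gam g →* Module.End R (Fin (g * (2 * g - 1)) → R ⧸ I) :=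
    { toFun := fun γ => (ρ γ).restrictScalars R
      map_one' := by rw [map_one]; rfl
      map_mul' := fun x y => by rw [map_mul]; rfl }
  refine ⟨I, ρ', fun h => hρ ?_⟩
  apply LinearMap.ext
  intro m
  exact homTriv_two h2 h m

end

end Pool.Agent.Q290.MR
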