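import Mathlib
import Pool.Agent.Q290.MR.Fin

set_option autoImplicit false

/-! Modules without `(2g-2)`-torsion. -/

namespace Pool.Agent.Q290.MR

open Pool.Agent.H798R3.MG Pool.Agent.H29R2.MG Pool.Agent.TH35.MG Pool.Agent.Q290.MG Module

section
variable {R M : Type*} [CommRing R] [AddCommGroup M] [Module R M] {g : ℕ}

theorem ker_tf (hg : 10 ≤ g) (ht : ∀ m : M, (2 * (g : R) - 2) • m = 0 → m = 0) {d : ℕ}
    (s : Fin d → M) (hs : Submodule.span R (Set.range s) = ⊤) (hd : d < 2 * g * (g - 1))
    (ρ : Gam g →* Module.End R M) : ∃ n : ℕ, ∀ γ : Gam g, ρ γ = 1 ↔ ActsTrivMod g n γ := by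
  let S : Submonoid R := Submonoid.powers (2 * (g : R) - 2)
  let f := LocalizedModule.mkLinearMap S M
  have hpow : ∀ (k : ℕ) (m : M), (2 * (g : R) - 2) ^ k • m = 0 → m = 0 := by
    intro k
    induction k with
    | zero => intro m h; rwa [pow_zero, one_smul] at h
    | succ k ih =>
      intro m h
      rw [pow_succ, mul_smul] at h
      exact ht m (ih _ h)
  have hf : Function.Injective f := by
    rw [injective_iff_map_eq_zero]
    intro m hm
    obtain ⟨⟨_, k, rfl⟩, hk⟩ := (IsLocalizedModule.eq_zero_iff S f).1 hm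
    exact hpow k m hk
  let ρ' : Gam g →* Module.End (Localization S) (LocalizedModule S M) :=
    { toFun := fun γ => IsLocalizedModule.mapExtendScalars S f f (Localization S) (ρ γ)
      map_one' := by
        apply LinearMap.ext
        intro x
        show IsLocalizedModule.map S f f (ρ 1) x = x
        rw [map_one, Module.End.one_eq_id, IsLocalizedModule.map_id]
        rfl
      map_mul' := by
        intro γ η
        apply LinearMap.ext
        intro x
        show IsLocalizedModule.map S f f (ρ (γ * η)) x =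
          IsLocalizedModule.map S f f (ρ γ) (IsLocalizedModule.map S f f (ρ η) x)
        obtain ⟨⟨x, s⟩, rfl⟩ := IsLocalizedModule.mk'_surjective S f x
        simp only [Function.uncurry_apply_pair, IsLocalizedModule.map_mk', map_mul,
          Module.End.mul_apply] }
  have hρ' : ∀ γ m, ρ' γ (f m) = f (ρ γ m) := fun γ m => IsLocalizedModule.map_apply S f f (ρ γ) m
  have hu : IsUnit (2 * (g : Localization S) - 2) := by
    have h1 := IsLocalization.map_units (Localization S)
      (⟨2 * (g : R) - 2, Submonoid.mem_powers _⟩ : S)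
    have h2 : algebraMap R (Localization S) (2 * (g : R) - 2) = 2 * (g : Localization S) - 2 := by
      rw [map_sub, map_mul, map_natCast, map_ofNat]
    rw [← h2]
    exact h1
  have hs' : Submodule.span (Localization S) (Set.range fun i => f (s i)) = ⊤ := by
    have h1 := span_eq_top_of_isLocalizedModule (Localization S) S f hs
    rw [← Set.range_comp] at h1
    exact h1
  obtain ⟨n, hn⟩ := ker_iff (homTriv_of hg hu (fun i => f (s i)) hs' hd ρ')
  refine ⟨n, fun γ => ?_⟩
  rw [← hn]
  constructor
  · intro h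
    apply LinearMap.ext
    intro x
    obtain ⟨⟨x, t⟩, rfl⟩ := IsLocalizedModule.mk'_surjective S f x
    show IsLocalizedModule.map S f f (ρ γ) (IsLocalizedModule.mk' f x t) = _
    rw [IsLocalizedModule.map_mk', h]
    rfl
  · intro h
    apply LinearMap.ext
    intro m
    apply hf
    rw [← hρ', h]
    rfl

theorem kills {ρ : Gam g →* Module.End R M}
    (h : ∃ n : ℕ, ∀ γ : Gam g, ρ γ = 1 ↔ ActsTrivMod g n γ) : KillsTorelli ρ := by
  obtain ⟨n, hn⟩ := h
  intro γ τ hτ hj
  rw [hn, triv_iff]
  intro i j
  have e : homMat g (γ : Mod g) i j = homologyClass (applyAut g τ (gen j)) i := by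
    rw [← hτ]; rfl
  rw [e, hj, hc_gen, Matrix.one_apply, Pi.single_apply, sub_self]
  exact dvd_zero _

theorem span_single (I : Ideal R) (n : ℕ) :
    Submodule.span R (Set.range fun i : Fin n => (Pi.single i 1 : Fin n → R ⧸ I)) = ⊤ := by
  classical
  rw [eq_top_iff]
  intro f _
  rw [Submodule.mem_span_range_iff_exists_fun]
  choose r hr using fun i => Ideal.Quotient.mk_surjective (f i)
  refine ⟨r, ?_⟩
  funext j
  rw [Finset.sum_apply, Finset.sum_eq_single j]
  · rw [Pi.smul_apply, Pi.single_eq_same, ← hr j]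
    show Ideal.Quotient.mk I (r j • 1) = _
    rw [smul_eq_mul, mul_one]
  · intro i _ hi
    rw [Pi.smul_apply, Pi.single_eq_of_ne (Ne.symm hi), smul_zero]
  · intro h; exact absurd (Finset.mem_univ _) h

theorem level_pos (h2 : 2 ≤ g) {ρ : Gam g →* Module.End R M} (hf : ρ.ker.FiniteIndex) {n : ℕ}
    (hn : ∀ γ : Gam g, ρ γ = 1 ↔ ActsTrivMod g n γ) : 1 ≤ n := by
  refine Nat.one_le_iff_ne_zero.2 ?_
  rintro rfl
  obtain ⟨k, hk0, -, hk⟩ := Subgroup.exists_pow_mem_of_index_ne_zero hf.index_ne_zero (gA g 0)
  have h3 := triv_pow h2 ((hn _).1 hk)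
  rw [zero_dvd_iff] at h3
  omega

theorem ker_finite_index [Finite M] (ρ : Gam g →* Module.End R M) : ρ.ker.FiniteIndex := by
  have hfin : Finite (Module.End R M) :=
    Finite.of_injective (fun f : Module.End R M => (f : M → M)) DFunLike.coe_injective
  have hfu : Finite (Module.End R M)ˣ := inferInstance
  have h : ρ.ker = ρ.toHomUnits.ker := by
    ext γ
    rw [MonoidHom.mem_ker, MonoidHom.mem_ker]
    constructor
    · intro h
      apply Units.ext
      exact h
    · intro h
      exact congrArg Units.val h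
  rw [h]
  exact Subgroup.finiteIndex_ker _

end

end Pool.Agent.Q290.MR
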