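import Mathlib
import Pool.Agent.Q290.MR.Loc

set_option autoImplicit false

/-! Abelian sections of the group generated by the twists. -/

namespace Pool.Agent.Q290.MR

open Pool.Agent.H798R3.MG Pool.Agent.H29R2.MG Pool.Agent.TH35.MG Pool.Agent.Q290.MG Module

section
variable {g : ℕ} {A : Type} [AddCommGroup A]

theorem section_abs (hg : 10 ≤ g) (N N₁ : Subgroup (Gam g)) [N.Normal] [N₁.Normal]
    (π : N₁ → A) (hπ : Function.Surjective π) (hm : ∀ x y, π (x * y) = π x + π y)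
    (hk : ∀ x, π x = 0 ↔ (x : Gam g) ∈ N) (ρ : Gam g →* Module.End ℤ A)
    (hρ : ∀ (γ : Gam g) (x y : N₁), (y : Gam g) = γ * x * γ⁻¹ → ρ γ (π x) = π y)
    (ht : ∀ x ∈ N₁, x ^ (2 * g - 2) ∈ N → x ∈ N) {d : ℕ} (s : Fin d → Gam g)
    (hs1 : ∀ i, s i ∈ N₁) (hs : N₁ ≤ Subgroup.closure (Set.range s) ⊔ N)
    (hd : d < 2 * g * (g - 1)) :
    ∃ n : ℕ, (N.FiniteIndex → 1 ≤ n) ∧
      ∀ γ : Gam g, (∀ x ∈ N₁, γ * x * γ⁻¹ * x⁻¹ ∈ N) ↔ ActsTrivMod g n γ := by
  classical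
  have h1 : π 1 = 0 := (hk 1).2 N.one_mem
  have hinv : ∀ x, π x⁻¹ = -π x := by
    intro x
    have h := hm x⁻¹ x
    rw [inv_mul_cancel, h1] at h
    exact eq_neg_of_add_eq_zero_left h.symm
  have hpow : ∀ (x : N₁) (k : ℕ), π (x ^ k) = k • π x := by
    intro x k
    induction k with
    | zero => rw [pow_zero, h1, zero_smul]
    | succ k ih => rw [pow_succ, hm, ih, add_smul, one_smul]
  have heq : ∀ x y : N₁, π x = π y ↔ (x : Gam g) * (y : Gam g)⁻¹ ∈ N := by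
    intro x y
    rw [← sub_eq_zero, sub_eq_add_neg, ← hinv, ← hm, hk]
    rfl
  have hts : ∀ m : A, (2 * (g : ℤ) - 2) • m = 0 → m = 0 := by
    intro m hm'
    obtain ⟨y, rfl⟩ := hπ m
    have h3 : (2 * (g : ℤ) - 2) = ((2 * g - 2 : ℕ) : ℤ) := by
      have : 2 ≤ 2 * g := by omega
      push_cast [Nat.cast_sub this]
      ring
    rw [h3, natCast_zsmul, ← hpow, hk] at hm'
    rw [hk]
    exact ht _ y.2 (by simpa using hm')
  have hle : Subgroup.closure (Set.range s) ≤ N₁ := by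
    rw [Subgroup.closure_le]
    rintro _ ⟨i, rfl⟩
    exact hs1 i
  have hspan : Submodule.span ℤ (Set.range fun i => π ⟨s i, hs1 i⟩) = ⊤ := by
    rw [eq_top_iff]
    intro m _
    obtain ⟨y, rfl⟩ := hπ m
    have key : ∀ x ∈ Subgroup.closure (Set.range s), ∀ hx : x ∈ N₁,
        π ⟨x, hx⟩ ∈ Submodule.span ℤ (Set.range fun i => π ⟨s i, hs1 i⟩) := by
      intro x hx
      induction hx using Subgroup.closure_induction with
      | mem x hx =>
        obtain ⟨i, rfl⟩ := hx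
        intro _
        exact Submodule.subset_span ⟨i, rfl⟩
      | one =>
        intro _
        have e : (⟨1, N₁.one_mem⟩ : N₁) = 1 := rfl
        rw [e, h1]
        exact Submodule.zero_mem _
      | mul a b ha hb h3 h4 =>
        intro _
        have e : (⟨a * b, N₁.mul_mem (hle ha) (hle hb)⟩ : N₁) = ⟨a, hle ha⟩ * ⟨b, hle hb⟩ := rfl
        rw [e, hm]
        exact Submodule.add_mem _ (h3 (hle ha)) (h4 (hle hb))
      | inv a ha h3 =>
        intro _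
        have e : (⟨a⁻¹, N₁.inv_mem (hle ha)⟩ : N₁) = (⟨a, hle ha⟩ : N₁)⁻¹ := rfl
        rw [e, hinv]
        exact Submodule.neg_mem _ (h3 (hle ha))
    obtain ⟨a, ha, b, hb, hab⟩ := (Subgroup.mem_sup_of_normal_right.1 (hs y.2))
    have e : π y = π ⟨a, hle ha⟩ := by
      rw [heq]
      show (y : Gam g) * a⁻¹ ∈ N
      rw [← hab]
      exact ‹N.Normal›.conj_mem _ hb a
    rw [e]
    exact key a ha _
  obtain ⟨n, hn⟩ : ∃ n : ℕ, ∀ γ : Gam g, ρ γ = 1 ↔ ActsTrivMod g n γ := by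
    refine ker_tf (R := ℤ) (M := A) hg ?_ (fun i => π ⟨s i, hs1 i⟩) hspan hd ρ
    intro m hm'
    exact hts m hm'
  have hker : ∀ γ : Gam g, (∀ x ∈ N₁, γ * x * γ⁻¹ * x⁻¹ ∈ N) ↔ ρ γ = 1 := by
    intro γ
    have h3 : ∀ y : N₁, ρ γ (π y) = π y ↔ γ * y * γ⁻¹ * (y : Gam g)⁻¹ ∈ N := by
      intro y
      rw [hρ γ y ⟨γ * y * γ⁻¹, ‹N₁.Normal›.conj_mem _ y.2 γ⟩ rfl, heq]
    constructor
    · intro h
      apply LinearMap.ext
      intro m
      obtain ⟨y, rfl⟩ := hπ m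
      exact (h3 y).2 (h y y.2)
    · intro h x hx
      exact (h3 ⟨x, hx⟩).1 (by rw [h]; rfl)
  refine ⟨n, fun hf => Nat.one_le_iff_ne_zero.2 ?_, fun γ => by rw [hker, hn]⟩
  rintro rfl
  obtain ⟨k, hk0, -, hk'⟩ := Subgroup.exists_pow_mem_of_index_ne_zero hf.index_ne_zero (gA g 0)
  have h4 : ρ (gA g 0 ^ k) = 1 := by
    rw [← hker]
    intro x _
    have h5 := ‹N.Normal›.conj_mem _ (N.inv_mem hk') x
    have h6 := N.mul_mem hk' h5
    have e : gA g 0 ^ k * (x * (gA g 0 ^ k)⁻¹ * x⁻¹) = gA g 0 ^ k * x * (gA g 0 ^ k)⁻¹ * x⁻¹ := by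
      group
    rw [← e]
    exact h6
  have h3 := triv_pow (by omega : 2 ≤ g) ((hn _).1 h4)
  rw [zero_dvd_iff] at h3
  omega

end

section
variable {g : ℕ}

theorem section_exists (N N₁ : Subgroup (Gam g)) [N.Normal] [N₁.Normal]
    (hc : ∀ x ∈ N₁, ∀ y ∈ N₁, x * y * x⁻¹ * y⁻¹ ∈ N) :
    ∃ (A : Type) (_ : AddCommGroup A) (π : N₁ → A) (ρ : Gam g →* Module.End ℤ A),
      Function.Surjective π ∧ (∀ x y, π (x * y) = π x + π y) ∧
      (∀ x, π x = 0 ↔ (x : Gam g) ∈ N) ∧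
      ∀ (γ : Gam g) (x y : N₁), (y : Gam g) = γ * x * γ⁻¹ → ρ γ (π x) = π y := by
  classical
  -- the quotient as a type
  let Q : Type := N₁ ⧸ N.subgroupOf N₁
  have hcomm : ∀ a b : Q, a * b = b * a := by
    intro a b
    obtain ⟨x, rfl⟩ := QuotientGroup.mk_surjective a
    obtain ⟨y, rfl⟩ := QuotientGroup.mk_surjective b
    show ((x * y : N₁) : Q) = ((y * x : N₁) : Q)
    refine (QuotientGroup.eq).2 ?_
    rw [Subgroup.mem_subgroupOf]
    have h := hc _ (N₁.inv_mem y.2) _ (N₁.inv_mem x.2)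
    rw [inv_inv, inv_inv] at h
    have e : (((x * y)⁻¹ * (y * x) : N₁) : Gam g) = (y : Gam g)⁻¹ * (x : Gam g)⁻¹ * y * x := by
      push_cast
      group
    rw [e]
    exact h
  let iQ : CommGroup Q := { (inferInstance : Group Q) with mul_comm := hcomm }
  let cj : Gam g → Q →* Q := fun γ =>
    QuotientGroup.map (N.subgroupOf N₁) (N.subgroupOf N₁) (MulAut.conjNormal γ).toMonoidHom (by
      intro x hx
      rw [Subgroup.mem_comap, Subgroup.mem_subgroupOf]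
      rw [Subgroup.mem_subgroupOf] at hx
      show ((MulAut.conjNormal γ x : N₁) : Gam g) ∈ N
      rw [MulAut.conjNormal_apply]
      exact ‹N.Normal›.conj_mem _ hx γ)
  have hcj : ∀ γ (x : N₁), cj γ (x : Q) = ((MulAut.conjNormal γ x : N₁) : Q) := fun _ _ => rfl
  have hcj1 : cj 1 = MonoidHom.id Q := by
    apply MonoidHom.ext
    intro a
    obtain ⟨x, rfl⟩ := QuotientGroup.mk_surjective a
    exact (hcj 1 x).trans (by rw [map_one, MulAut.one_apply]; rfl)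
  have hcjm : ∀ γ η, cj (γ * η) = (cj γ).comp (cj η) := by
    intro γ η
    apply MonoidHom.ext
    intro a
    obtain ⟨x, rfl⟩ := QuotientGroup.mk_surjective a
    exact (hcj _ x).trans (by rw [map_mul, MulAut.mul_apply]; rfl)
  refine ⟨Additive Q, inferInstance, fun x => Additive.ofMul (x : Q),
    { toFun := fun γ => (MonoidHom.toAdditive (cj γ)).toIntLinearMap
      map_one' := by rw [hcj1]; rfl
      map_mul' := fun γ η => by rw [hcjm]; rfl }, ?_, fun _ _ => rfl, ?_, ?_⟩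
  · intro a
    obtain ⟨x, hx⟩ := QuotientGroup.mk_surjective (Additive.toMul a)
    exact ⟨x, by rw [← ofMul_toMul a, ← hx]⟩
  · intro x
    have h : ((x : Q) = ((1 : N₁) : Q)) ↔ (x : Gam g) ∈ N := by
      rw [eq_comm]
      refine (QuotientGroup.eq).trans ?_
      rw [Subgroup.mem_subgroupOf]
      simp only [inv_one, one_mul]
    exact h
  · intro γ x y hxy
    have e : MulAut.conjNormal γ x = y := by
      apply Subtype.ext
      rw [MulAut.conjNormal_apply, hxy]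
    show Additive.ofMul (cj γ (x : Q)) = Additive.ofMul (y : Q)
    rw [hcj, e]

theorem section_ker (hg : 10 ≤ g) (N N₁ : Subgroup (Gam g)) [N.Normal] [N₁.Normal]
    (hc : ∀ x ∈ N₁, ∀ y ∈ N₁, x * y * x⁻¹ * y⁻¹ ∈ N)
    (ht : ∀ x ∈ N₁, x ^ (2 * g - 2) ∈ N → x ∈ N) {d : ℕ} (s : Fin d → Gam g)
    (hs1 : ∀ i, s i ∈ N₁) (hs : N₁ ≤ Subgroup.closure (Set.range s) ⊔ N)
    (hd : d < 2 * g * (g - 1)) :
    ∃ n : ℕ, (N.FiniteIndex → 1 ≤ n) ∧
      ∀ γ : Gam g, (∀ x ∈ N₁, γ * x * γ⁻¹ * x⁻¹ ∈ N) ↔ ActsTrivMod g n γ := by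
  obtain ⟨A, _, π, ρ, h1, h2, h3, h4⟩ := section_exists N N₁ hc
  exact section_abs hg N N₁ π h1 h2 h3 ρ h4 ht s hs1 hs hd

end

end Pool.Agent.Q290.MR
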